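import Pool.Agent.Helper732.HP.R0

set_option autoImplicit false

open Set Filter Topology

namespace Pool.Agent.Helper732.HP


/-! ### The parts `XX α` -/

theorem XX_mono {β γ : Om} (h : β ≤ γ) : XX β ⊆ XX γ := by
  rintro (x | ⟨a, b⟩) hx
  · exact hx
  · exact lt_of_lt_of_le (show a < β from hx) h

theorem inl_mem_XX (x : R3) (α : Om) : (Sum.inl x : X) ∈ XX α := trivial

theorem inr_mem_XX {a α : Om} {b : NNReal} : (Sum.inr (a, b) : X) ∈ XX α ↔ a < α := Iff.rfl

theorem isOpen_down {e : Om → R3 → X} {s s' : Set Om} (h : s' ⊆ s) {V : Set X}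
    (hV : IsOpen[top e s] V) : IsOpen[top e s'] V := ⟨hV.1, fun β hβ => hV.2 β (h hβ)⟩

theorem top_congr {e e' : Om → R3 → X} {s : Set Om} (h : ∀ β ∈ s, e β = e' β) :
    top e s = top e' s := by
  ext V
  refine and_congr Iff.rfl ?_
  exact forall₂_congr fun β hβ => by rw [h β hβ]

section Glue

variable {e : Om → R3 → X} {s : Set Om}

theorem e_ray {β : Om} (h : Att (top e (Iio β)) β (e β)) {w : R3} (hw : w ∈ Ray) :
    e β w = Sum.inr (β, w.1.toNNReal) := by
  have := h.ray w.1 hw.1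
  rw [← this]
  congr 1
  exact Prod.ext rfl hw.2

theorem e_mem {β γ : Om} (h : Att (top e (Iio β)) β (e β)) (hβ : β < γ) (w : R3) :
    e β w ∈ XX γ := by
  by_cases hw : w ∈ Ray
  · rw [e_ray h hw]; exact hβ
  · exact XX_mono hβ.le (h.off w hw)

theorem glu_K {β : Om} (h : Att (top e (Iio β)) β (e β)) {V : Set X} (hV : V ⊆ XX β)
    (ho : IsOpen[top e (Iio β)] V) : IsOpen (e β ⁻¹' V) := by
  have h1 : e β ⁻¹' V = e β ⁻¹' V ∩ Rayᶜ := by
    ext w
    constructor
    · intro hw
      refine ⟨hw, fun hr => ?_⟩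
      have h2 : e β w ∈ XX β := hV hw
      rw [e_ray h hr] at h2
      exact lt_irrefl _ (show β < β from h2)
    · exact fun hw => hw.1
  rw [h1]
  exact h.cont V ho

theorem glu_gen (h : ∀ β ∈ s, Att (top e (Iio β)) β (e β)) (hs : IsLowerSet s)
    {V : Set X} (h0 : IsOpen (Sum.inl ⁻¹' V : Set R3))
    (hV : ∀ β ∈ s, IsOpen (e β ⁻¹' V) ∨ V ⊆ XX β) : IsOpen[top e s] V := by
  refine ⟨h0, ?_⟩
  intro β
  induction β using WellFoundedLT.induction with
  | ind β ih =>
    intro hβ
    rcases hV β hβ with h1 | h1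
    · exact h1
    · exact glu_K (h β hβ) h1 ⟨h0, fun β' hβ' => ih β' hβ' (hs (le_of_lt hβ') hβ)⟩

theorem isOpen_up (h : ∀ β ∈ s, Att (top e (Iio β)) β (e β)) (hs : IsLowerSet s) {γ : Om}
    {V : Set X} (hV : V ⊆ XX γ) (ho : IsOpen[top e (Iio γ)] V) : IsOpen[top e s] V := by
  apply glu_gen h hs ho.1
  intro β _
  rcases lt_or_ge β γ with hlt | hge
  · exact Or.inl (ho.2 β hlt)
  · exact Or.inr (hV.trans (XX_mono hge))

theorem isOpen_XX (h : ∀ β ∈ s, Att (top e (Iio β)) β (e β)) (hs : IsLowerSet s) {γ : Om} :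
    IsOpen[top e s] (XX γ) := by
  apply glu_gen h hs
  · have : (Sum.inl ⁻¹' (XX γ) : Set R3) = univ := by
      ext x; simp [inl_mem_XX]
    rw [this]; exact isOpen_univ
  · intro β hβ
    rcases lt_or_ge β γ with hlt | hge
    · left
      have : e β ⁻¹' (XX γ) = univ := by
        ext w
        simp only [mem_preimage, mem_univ, iff_true]
        exact e_mem (h β hβ) hlt w
      rw [this]; exact isOpen_univ
    · exact Or.inr (XX_mono hge)

theorem openEmb_inl (h : ∀ β ∈ s, Att (top e (Iio β)) β (e β)) (hs : IsLowerSet s) :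
    @Topology.IsOpenEmbedding R3 X _ (top e s) Sum.inl := by
  let _ := top e s
  apply Topology.IsOpenEmbedding.of_continuous_injective_isOpenMap
  · exact ⟨fun V hV => hV.1⟩
  · exact Sum.inl_injective
  · intro U hU
    apply glu_gen h hs
    · rw [preimage_image_eq _ Sum.inl_injective]
      exact hU
    · intro β _
      right
      rintro _ ⟨x, _, rfl⟩
      exact inl_mem_XX x β

theorem glu_ray : IsClosed Ray := by
  apply IsClosed.inter
  · exact isClosed_le continuous_const continuous_fst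
  · exact isClosed_eq continuous_snd continuous_const

theorem glu_img {β : Om} (h : Att (top e (Iio β)) β (e β)) {U : Set R3} {x : X} (hx : x ∈ XX β)
    (hU : x ∈ e β '' U) : x ∈ e β '' (U ∩ Rayᶜ) := by
  obtain ⟨u, hu, rfl⟩ := hU
  refine ⟨u, ⟨hu, fun hr => ?_⟩, rfl⟩
  rw [e_ray h hr] at hx
  exact lt_irrefl _ (show β < β from hx)

theorem openEmb_e (h : ∀ β ∈ s, Att (top e (Iio β)) β (e β)) (hs : IsLowerSet s) {β : Om}
    (hβ : β ∈ s) : @Topology.IsOpenEmbedding R3 X _ (top e s) (e β) := by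
  let _ := top e s
  apply Topology.IsOpenEmbedding.of_continuous_injective_isOpenMap
  · exact ⟨fun V hV => hV.2 β hβ⟩
  · exact (h β hβ).inj
  · intro U hU
    have hUo : IsOpen (U ∩ Rayᶜ) := hU.inter glu_ray.isOpen_compl
    have hop := (h β hβ).opn (U ∩ Rayᶜ) inter_subset_right hUo
    apply glu_gen h hs
    · have : (Sum.inl ⁻¹' (e β '' U) : Set R3) = Sum.inl ⁻¹' (e β '' (U ∩ Rayᶜ)) := by
        ext x
        constructor
        · intro hx
          exact glu_img (h β hβ) (inl_mem_XX x β) hx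
        · intro hx
          exact image_mono inter_subset_left hx
      rw [this]
      exact hop.1
    · intro β' hβ'
      rcases lt_trichotomy β' β with hlt | heq | hgt
      · left
        have : e β' ⁻¹' (e β '' U) = e β' ⁻¹' (e β '' (U ∩ Rayᶜ)) := by
          ext w
          constructor
          · intro hw
            exact glu_img (h β hβ) (e_mem (h β' hβ') hlt w) hw
          · intro hw
            exact image_mono inter_subset_left hw
        rw [this]
        exact hop.2 β' hlt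
      · left
        rw [heq, preimage_image_eq _ (h β hβ).inj]
        exact hU
      · right
        rintro _ ⟨w, _, rfl⟩
        exact e_mem (h β hβ) hgt w

/-- separation of two points -/
def GSep (t : TopologicalSpace X) (x y : X) : Prop :=
  ∃ u v : Set X, IsOpen[t] u ∧ IsOpen[t] v ∧ x ∈ u ∧ y ∈ v ∧ Disjoint u v

theorem GSep.symm {t : TopologicalSpace X} {x y : X} (h : GSep t x y) : GSep t y x := by
  obtain ⟨u, v, hu, hv, hx, hy, hd⟩ := h
  exact ⟨v, u, hv, hu, hy, hx, hd.symm⟩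

theorem glu_iso (h : ∀ β ∈ s, Att (top e (Iio β)) β (e β)) (hs : IsLowerSet s) {α : Om}
    (hα : α ∉ s) (r : NNReal) {y : X} (hne : (Sum.inr (α, r) : X) ≠ y) :
    GSep (top e s) (Sum.inr (α, r)) y := by
  have hno : ∀ β ∈ s, ∀ w, e β w ≠ Sum.inr (α, r) := by
    intro β hβ w hw
    by_cases hr : w ∈ Ray
    · rw [e_ray (h β hβ) hr] at hw
      have := Sum.inr_injective hw
      apply hα
      rw [← (Prod.mk.inj this).1]
      exact hβ
    · have h1 := (h β hβ).off w hr
      rw [hw] at h1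
      have h2 : α < β := h1
      exact hα (hs (le_of_lt h2) hβ)
  refine ⟨{Sum.inr (α, r)}, {Sum.inr (α, r)}ᶜ, ⟨?_, ?_⟩, ⟨?_, ?_⟩, rfl, ?_, disjoint_compl_right⟩
  · have : (Sum.inl ⁻¹' {(Sum.inr (α, r) : X)} : Set R3) = ∅ := by
      ext x; simp
    rw [this]; exact isOpen_empty
  · intro β hβ
    have : e β ⁻¹' {(Sum.inr (α, r) : X)} = ∅ := by
      ext w
      simp only [mem_preimage, mem_singleton_iff, mem_empty_iff_false, iff_false]
      exact hno β hβ w
    rw [this]; exact isOpen_empty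
  · have : (Sum.inl ⁻¹' {(Sum.inr (α, r) : X)}ᶜ : Set R3) = univ := by
      ext x; simp
    rw [this]; exact isOpen_univ
  · intro β hβ
    have : e β ⁻¹' {(Sum.inr (α, r) : X)}ᶜ = univ := by
      ext w
      simp only [mem_preimage, mem_compl_iff, mem_singleton_iff, mem_univ, iff_true]
      exact hno β hβ w
    rw [this]; exact isOpen_univ
  · simpa using hne.symm

theorem glu_pt {β : Om} (h : Att (top e (Iio β)) β (e β)) (r : NNReal) :
    e β ((r : ℝ), 0) = Sum.inr (β, r) ∧ ((r : ℝ), (0 : ℝ × ℝ)) ∈ Ray := by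
  refine ⟨?_, ⟨r.2, rfl⟩⟩
  rw [h.ray (r : ℝ) r.2, Real.toNNReal_coe]

theorem glu_sepXX (h : ∀ β ∈ s, Att (top e (Iio β)) β (e β)) (hs : IsLowerSet s) {β : Om}
    (hβ : β ∈ s) {x : X} (hx : x ∈ XX β) (r : NNReal) :
    GSep (top e s) x (Sum.inr (β, r)) := by
  obtain ⟨V, hV, hxV, hsep⟩ := (h β hβ).sep x hx
  obtain ⟨h1, h2⟩ := glu_pt (h β hβ) r
  obtain ⟨B, hB, hwB, hBV⟩ := hsep _ h2
  have hlow : ∀ β' ∈ Iio β, Att (top e (Iio β')) β' (e β') :=
    fun β' hβ' => h β' (hs (le_of_lt hβ') hβ)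
  have hXo : IsOpen[top e (Iio β)] (XX β) := isOpen_XX hlow (isLowerSet_Iio β)
  have hVo : IsOpen[top e (Iio β)] (V ∩ XX β) := by
    let _ := top e (Iio β)
    exact IsOpen.inter hV hXo
  have hVs : IsOpen[top e s] (V ∩ XX β) := isOpen_up h hs inter_subset_right hVo
  have hBs : IsOpen[top e s] (e β '' B) := by
    let _ := top e s
    exact (openEmb_e h hs hβ).isOpenMap B hB
  refine ⟨V ∩ XX β, e β '' B, hVs, hBs, ⟨hxV, hx⟩, ⟨_, hwB, h1⟩, ?_⟩
  rw [Set.disjoint_left]
  rintro _ ⟨hz, _⟩ ⟨w, hw, rfl⟩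
  exact hBV w hw hz

theorem glu_emb {t : TopologicalSpace X} {f : R3 → X} (hf : @Topology.IsOpenEmbedding R3 X _ t f)
    {a b : R3} (hne : a ≠ b) : GSep t (f a) (f b) := by
  obtain ⟨u, v, hu, hv, ha, hb, hd⟩ := t2_separation hne
  refine ⟨f '' u, f '' v, hf.isOpenMap u hu, hf.isOpenMap v hv, ⟨a, ha, rfl⟩, ⟨b, hb, rfl⟩, ?_⟩
  exact (Set.disjoint_image_iff hf.injective).mpr hd

theorem t2 (h : ∀ β ∈ s, Att (top e (Iio β)) β (e β)) (hs : IsLowerSet s) :
    @T2Space X (top e s) := by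
  have key : ∀ x y : X, x ≠ y → GSep (top e s) x y := by
    rintro (a | ⟨α, r⟩) (b | ⟨β, q⟩) hne
    · exact glu_emb (openEmb_inl h hs) (fun hab => hne (by rw [hab]))
    · by_cases hβ : β ∈ s
      · exact glu_sepXX h hs hβ (inl_mem_XX a β) q
      · exact (glu_iso h hs hβ q hne.symm).symm
    · by_cases hα : α ∈ s
      · exact (glu_sepXX h hs hα (inl_mem_XX b α) r).symm
      · exact glu_iso h hs hα r hne
    · by_cases hα : α ∈ s
      swap
      · exact glu_iso h hs hα r hne
      by_cases hβ : β ∈ s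
      swap
      · exact (glu_iso h hs hβ q hne.symm).symm
      rcases lt_trichotomy α β with hlt | heq | hgt
      · exact glu_sepXX h hs hβ (x := Sum.inr (α, r)) (show α < β from hlt) q
      · subst heq
        rw [← (glu_pt (h α hα) r).1, ← (glu_pt (h α hα) q).1]
        apply glu_emb (openEmb_e h hs hα)
        intro hrq
        apply hne
        have h3 : (r : ℝ) = q := (Prod.mk.inj hrq).1
        have h4 : r = q := NNReal.coe_injective h3
        rw [h4]
      · exact (glu_sepXX h hs hα (x := Sum.inr (β, q)) (show β < α from hgt) r).symm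
  let _ := top e s
  exact ⟨fun x y hne => key x y hne⟩

end Glue

end Pool.Agent.Helper732.HP
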