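import Pool.Agent.Helper732.HP.A

set_option autoImplicit false

open Set Filter Topology

namespace Pool.Agent.Helper732.HP

/-! ## TARGETS -/


theorem sq_sum_nonneg (p : R3) : 0 ≤ p.1 ^ 2 + p.2.1 ^ 2 + p.2.2 ^ 2 := by positivity

theorem nrm_sq (p : R3) : nrm p ^ 2 = p.1 ^ 2 + p.2.1 ^ 2 + p.2.2 ^ 2 := by
  unfold nrm
  exact Real.sq_sqrt (sq_sum_nonneg p)

theorem nrm_nonneg (p : R3) : 0 ≤ nrm p := Real.sqrt_nonneg _

theorem nrm_ge (p : R3) : p.1 ≤ nrm p := by
  unfold nrm
  apply Real.le_sqrt_of_sq_le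
  nlinarith [sq_nonneg p.2.1, sq_nonneg p.2.2]

theorem nrm_continuous : Continuous nrm := by
  unfold nrm
  fun_prop

theorem uu_continuous : Continuous uu := by
  unfold uu
  exact ((nrm_continuous.sub continuous_fst).div_const 2).sqrt

theorem uu_sq (p : R3) : uu p ^ 2 = (nrm p - p.1) / 2 := by
  unfold uu
  apply Real.sq_sqrt
  have := nrm_ge p
  linarith

theorem uu_ray {p : R3} (hp : p ∈ Ray) : uu p = 0 := by
  obtain ⟨h1, h2⟩ := hp
  have h3 : p.2.1 = 0 := by rw [h2]; rfl
  have h4 : p.2.2 = 0 := by rw [h2]; rfl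
  have : nrm p = p.1 := by
    unfold nrm
    rw [h3, h4]
    simp only [ne_eq, OfNat.ofNat_ne_zero, not_false_eq_true, zero_pow, add_zero]
    exact Real.sqrt_sq h1
  unfold uu
  rw [this]
  simp

theorem uu_pos {p : R3} (hp : p ∉ Ray) : 0 < uu p := by
  unfold uu
  apply Real.sqrt_pos.mpr
  have h1 := nrm_ge p
  rcases h1.lt_or_eq with h | h
  · linarith
  · exfalso
    apply hp
    have h2 := nrm_sq p
    rw [← h] at h2
    have h3 : p.2.1 = 0 := by nlinarith [sq_nonneg p.2.1, sq_nonneg p.2.2]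
    have h4 : p.2.2 = 0 := by nlinarith [sq_nonneg p.2.1, sq_nonneg p.2.2]
    refine ⟨?_, Prod.ext h3 h4⟩
    rw [h]
    exact nrm_nonneg p

theorem pari_notMem {p : R3} (hp : 0 < p.1) : pari p ∉ Ray := by
  rintro ⟨h1, h2⟩
  unfold pari at h1 h2
  simp only at h1 h2
  have h3 : 2 * p.1 * p.2.1 = 0 := congrArg Prod.fst h2
  have h4 : 2 * p.1 * p.2.2 = 0 := congrArg Prod.snd h2
  have h5 : p.2.1 = 0 := by
    rcases mul_eq_zero.mp h3 with h | h
    · linarith
    · exact h
  have h6 : p.2.2 = 0 := by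
    rcases mul_eq_zero.mp h4 with h | h
    · linarith
    · exact h
  rw [h5, h6] at h1
  nlinarith

theorem nrm_pari (p : R3) : nrm (pari p) = p.1 ^ 2 + p.2.1 ^ 2 + p.2.2 ^ 2 := by
  unfold nrm pari
  simp only
  rw [show (p.2.1 ^ 2 + p.2.2 ^ 2 - p.1 ^ 2) ^ 2 + (2 * p.1 * p.2.1) ^ 2 + (2 * p.1 * p.2.2) ^ 2
    = (p.1 ^ 2 + p.2.1 ^ 2 + p.2.2 ^ 2) ^ 2 by ring]
  exact Real.sqrt_sq (sq_sum_nonneg p)

theorem uu_pari {p : R3} (hp : 0 < p.1) : uu (pari p) = p.1 := by
  unfold uu
  rw [nrm_pari]
  unfold pari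
  simp only
  rw [show (p.1 ^ 2 + p.2.1 ^ 2 + p.2.2 ^ 2 - (p.2.1 ^ 2 + p.2.2 ^ 2 - p.1 ^ 2)) / 2 = p.1 ^ 2 by
    ring]
  exact Real.sqrt_sq hp.le

theorem par_pari {p : R3} (hp : 0 < p.1) : par (pari p) = p := by
  unfold par
  rw [uu_pari hp]
  unfold pari
  simp only
  have h : (2 * p.1) ≠ 0 := by positivity
  refine Prod.ext rfl (Prod.ext ?_ ?_)
  · simp only
    field_simp
  · simp only
    field_simp

theorem pari_par {p : R3} (hp : p ∉ Ray) : pari (par p) = p := by
  have hu := uu_pos hp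
  have h2 := uu_sq p
  have h3 := nrm_sq p
  unfold pari par
  simp only
  refine Prod.ext ?_ (Prod.ext ?_ ?_)
  · simp only
    have hne : (2 * uu p) ^ 2 ≠ 0 := by positivity
    have : (p.2.1 / (2 * uu p)) ^ 2 + (p.2.2 / (2 * uu p)) ^ 2 - uu p ^ 2 =
        (p.2.1 ^ 2 + p.2.2 ^ 2 - 4 * (uu p ^ 2) ^ 2) / (4 * uu p ^ 2) := by
      field_simp
      ring
    rw [this, div_eq_iff (by positivity), h2]
    nlinarith
  · simp only
    field_simp
  · simp only
    field_simp

theorem pari_continuous : Continuous pari := by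
  unfold pari
  fun_prop

theorem par_continuousOn : ContinuousOn par Rayᶜ := by
  unfold par
  have hu : ContinuousOn uu Rayᶜ := uu_continuous.continuousOn
  refine hu.prodMk (ContinuousOn.prodMk ?_ ?_)
  · refine ContinuousOn.div (by fun_prop) (continuousOn_const.mul hu) ?_
    intro x hx
    have := uu_pos hx
    positivity
  · refine ContinuousOn.div (by fun_prop) (continuousOn_const.mul hu) ?_
    intro x hx
    have := uu_pos hx
    positivity

theorem isClosed_Ray : IsClosed Ray := by
  unfold Ray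
  exact (isClosed_le continuous_const continuous_fst).inter
    (isClosed_eq continuous_snd continuous_const)

theorem lo_hi (q : Ty) : 0 ≤ lo q ∧ lo q < hi q ∧ hi q ≤ 3 := by
  unfold lo hi
  refine ⟨?_, ?_, ?_⟩
  · split_ifs <;> norm_num
  · split_ifs <;> norm_num
  · split_ifs <;> norm_num

/-- the part of the strip in the range of `tau` -/
def Reg (q : Ty) (f : ℝ → ℝ) : Set R3 :=
  {p | 0 < p.1 ∧ lo q < p.2.1 ∧ p.2.1 < hi q ∧ f p.1 < p.2.2 ∧ p.2.2 < 1}

/-- the inverse of `tau` -/
noncomputable def tauI (q : Ty) (f w : ℝ → ℝ) (p : R3) : R3 :=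
  (1 / p.1, Real.log ((p.2.1 - lo q) / (hi q - p.2.1)) + w p.1,
    Real.log ((p.2.2 - f p.1) / (1 - p.2.2) * (4 / 3)))

/-- the heights in the attaching tube have type at most `q` -/
theorem lo_hi_ty {q : Ty} {y : ℝ} (h : lo q < y) (h' : y < hi q) : R (ty y) q := by
  unfold ty
  unfold lo at h
  unfold hi at h'
  by_cases h1 : y ≤ 1
  · rw [if_pos h1]
    by_cases h2 : q = 2
    · exact Or.inr h2.symm
    · rw [if_neg h2] at h
      exfalso
      linarith
  · rw [if_neg h1]
    by_cases h3 : y < 2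
    · rw [if_pos h3]
      exact Or.inl rfl
    · rw [if_neg h3]
      by_cases h4 : q = 1
      · exact Or.inr h4.symm
      · rw [if_neg h4] at h'
        exfalso
        linarith

theorem Reg_ty {q : Ty} {f : ℝ → ℝ} {p : R3} (hp : p ∈ Reg q f) : R (ty p.2.1) q :=
  lo_hi_ty hp.2.1 hp.2.2.1

theorem j20124_d01 : ¬ ((0 : Ty) = 1) := by decide

theorem j20124_d02 : ¬ ((0 : Ty) = 2) := by decide

theorem j20124_d10 : ¬ ((1 : Ty) = 0) := by decide

theorem j20124_d12 : ¬ ((1 : Ty) = 2) := by decide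

theorem j20124_d20 : ¬ ((2 : Ty) = 0) := by decide

theorem j20124_d21 : ¬ ((2 : Ty) = 1) := by decide

/-- the marks of type at most `q` have heights in the attaching tube -/
theorem hg_lo_hi {m q : Ty} (h : R m q) : lo q < hg m ∧ hg m < hi q := by
  unfold lo hi hg
  rcases h with h | h
  · subst h
    rw [if_pos rfl]
    refine ⟨?_, ?_⟩
    · split_ifs <;> norm_num
    · split_ifs <;> norm_num
  · subst h
    have h3 : m = 0 ∨ m = 1 ∨ m = 2 := by
      revert m
      decide
    rcases h3 with h3 | h3 | h3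
    · subst h3
      rw [if_neg j20124_d02, if_pos rfl, if_neg j20124_d01]
      norm_num
    · subst h3
      rw [if_neg j20124_d12, if_neg j20124_d10, if_pos rfl, if_pos rfl]
      norm_num
    · subst h3
      rw [if_pos rfl, if_neg j20124_d20, if_neg j20124_d21, if_neg j20124_d21]
      norm_num

section tau

variable {q : Ty} {f w : ℝ → ℝ} (hf : Continuous f) (hw : Continuous w)
  (hb : ∀ x, |f x| ≤ 3 / 4)

include hb in
theorem Reg_subset : Reg q f ⊆ S := by
  rintro p ⟨h1, h2, h3, h4, h5⟩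
  have hlh := lo_hi q
  refine ⟨h1, by linarith, by linarith, ?_, h5⟩
  have := (abs_le.mp (hb p.1)).1
  linarith

include hf in
theorem isOpen_Reg : IsOpen (Reg q f) := by
  unfold Reg
  have c1 : Continuous fun p : R3 => p.1 := continuous_fst
  have c2 : Continuous fun p : R3 => p.2.1 := by fun_prop
  have c3 : Continuous fun p : R3 => p.2.2 := by fun_prop
  have c4 : Continuous fun p : R3 => f p.1 := hf.comp c1
  exact (isOpen_lt continuous_const c1).inter ((isOpen_lt continuous_const c2).inter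
    ((isOpen_lt c2 continuous_const).inter ((isOpen_lt c4 c3).inter
      (isOpen_lt c3 continuous_const))))

include hb in
theorem tau_mem {p : R3} (hp : 0 < p.1) : tau q f w p ∈ Reg q f := by
  have hlh := (lo_hi q).2.1
  unfold tau Reg
  simp only [mem_ofPred_eq]
  have e1 := Real.exp_pos (p.2.1 - w (1 / p.1))
  have e2 := Real.exp_pos p.2.2
  have hq : (0 : ℝ) < hi q - lo q := by linarith
  have hb1 := abs_le.mp (hb (1 / p.1))
  refine ⟨by positivity, ?_, ?_, ?_, ?_⟩
  · have : 0 < (hi q - lo q) * Real.exp (p.2.1 - w (1 / p.1)) /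
      (1 + Real.exp (p.2.1 - w (1 / p.1))) := by positivity
    linarith
  · have : (hi q - lo q) * Real.exp (p.2.1 - w (1 / p.1)) /
      (1 + Real.exp (p.2.1 - w (1 / p.1))) < hi q - lo q := by
      rw [div_lt_iff₀ (by positivity)]
      nlinarith
    linarith
  · rw [lt_div_iff₀ (by positivity)]
    nlinarith
  · rw [div_lt_iff₀ (by positivity)]
    nlinarith

theorem tauI_tau {p : R3} (hb : ∀ x, |f x| ≤ 3 / 4) (hp : 0 < p.1) :
    tauI q f w (tau q f w p) = p := by
  have hlh := (lo_hi q).2.1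
  unfold tauI tau
  simp only [one_div, inv_inv]
  have e1 := Real.exp_pos (p.2.1 - w (p.1)⁻¹)
  have e2 := Real.exp_pos p.2.2
  have hb1 := abs_le.mp (hb (p.1)⁻¹)
  refine Prod.ext rfl (Prod.ext ?_ ?_)
  · simp only
    set E := Real.exp (p.2.1 - w (p.1)⁻¹) with hE
    have hq : (0 : ℝ) < hi q - lo q := by linarith
    have h1 : (lo q + (hi q - lo q) * E / (1 + E) - lo q) /
        (hi q - (lo q + (hi q - lo q) * E / (1 + E))) = E := by
      have h2 : hi q - (lo q + (hi q - lo q) * E / (1 + E)) = (hi q - lo q) / (1 + E) := by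
        field_simp
        ring
      rw [h2, add_sub_cancel_left]
      generalize hi q - lo q = Q at *
      field_simp
    rw [h1, hE, Real.log_exp]
    ring
  · simp only
    generalize f (p.1)⁻¹ = F at *
    set E := Real.exp p.2.2 with hE
    have h1 : ((F + 3 / 4 * E) / (1 + 3 / 4 * E) - F) /
        (1 - (F + 3 / 4 * E) / (1 + 3 / 4 * E)) * (4 / 3) = E := by
      have hne : (1 + 3 / 4 * E) ≠ 0 := by positivity
      have hne2 : 1 - F ≠ 0 := by linarith
      have h2 : (F + 3 / 4 * E) / (1 + 3 / 4 * E) - F =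
          (1 - F) * (3 / 4 * E) / (1 + 3 / 4 * E) := by
        field_simp
        ring
      have h3 : 1 - (F + 3 / 4 * E) / (1 + 3 / 4 * E) =
          (1 - F) / (1 + 3 / 4 * E) := by
        field_simp
        ring
      rw [h2, h3]
      field_simp
    rw [h1, hE, Real.log_exp]

theorem tau_tauI {p : R3} (hp : p ∈ Reg q f) : tau q f w (tauI q f w p) = p := by
  have hlh := (lo_hi q).2.1
  obtain ⟨h1, h2, h3, h4, h5⟩ := hp
  unfold tau tauI
  simp only [one_div, inv_inv]
  have hA : 0 < (p.2.1 - lo q) / (hi q - p.2.1) := div_pos (by linarith) (by linarith)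
  have hB : 0 < (p.2.2 - f p.1) / (1 - p.2.2) * (4 / 3) :=
    mul_pos (div_pos (by linarith) (by linarith)) (by norm_num)
  refine Prod.ext rfl (Prod.ext ?_ ?_)
  · simp only
    rw [add_sub_cancel_right, Real.exp_log hA]
    generalize hi q = Q at *
    generalize lo q = P at *
    have h10 : Q - p.2.1 ≠ 0 := by linarith
    have h11 : Q - P ≠ 0 := by linarith
    have h6 : 1 + (p.2.1 - P) / (Q - p.2.1) = (Q - P) / (Q - p.2.1) := by
      field_simp
      ring
    rw [h6]
    field_simp
    ring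
  · simp only
    rw [Real.exp_log hB]
    have h7 : 1 - p.2.2 ≠ 0 := by linarith
    have h8 : 1 - f p.1 ≠ 0 := by linarith
    have h9 : 3 / 4 * ((p.2.2 - f p.1) / (1 - p.2.2) * (4 / 3)) = (p.2.2 - f p.1) / (1 - p.2.2) := by
      ring
    rw [h9]
    have h10 : 1 + (p.2.2 - f p.1) / (1 - p.2.2) = (1 - f p.1) / (1 - p.2.2) := by
      field_simp
      ring
    have h11 : f p.1 + (p.2.2 - f p.1) / (1 - p.2.2) = p.2.2 * (1 - f p.1) / (1 - p.2.2) := by
      field_simp
      ring
    rw [h10, h11]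
    field_simp

include hf hw in
theorem tau_continuousOn : ContinuousOn (tau q f w) {p | 0 < p.1} := by
  unfold tau
  have c1 : ContinuousOn (fun p : R3 => 1 / p.1) {p | 0 < p.1} := by
    refine ContinuousOn.div continuousOn_const continuous_fst.continuousOn ?_
    intro x hx
    exact ne_of_gt hx
  have c2 : ContinuousOn (fun p : R3 => f (1 / p.1)) {p | 0 < p.1} := hf.comp_continuousOn c1
  have c3 : ContinuousOn (fun p : R3 => w (1 / p.1)) {p | 0 < p.1} := hw.comp_continuousOn c1
  have c4 : ContinuousOn (fun p : R3 => Real.exp (p.2.1 - w (1 / p.1))) {p | 0 < p.1} := by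
    refine Real.continuous_exp.comp_continuousOn (ContinuousOn.sub ?_ c3)
    fun_prop
  have c5 : ContinuousOn (fun p : R3 => Real.exp p.2.2) {p | 0 < p.1} := by fun_prop
  refine c1.prodMk (ContinuousOn.prodMk ?_ ?_)
  · refine continuousOn_const.add
      (ContinuousOn.div (continuousOn_const.mul c4) (continuousOn_const.add c4) ?_)
    intro x _
    have := Real.exp_pos (x.2.1 - w (1 / x.1))
    positivity
  · refine ContinuousOn.div (c2.add (continuousOn_const.mul c5))
      (continuousOn_const.add (continuousOn_const.mul c5)) ?_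
    intro x _
    have := Real.exp_pos x.2.2
    positivity

include hf hw in
theorem tauI_continuousOn : ContinuousOn (tauI q f w) (Reg q f) := by
  unfold tauI
  have c1 : ContinuousOn (fun p : R3 => 1 / p.1) (Reg q f) := by
    refine ContinuousOn.div continuousOn_const continuous_fst.continuousOn ?_
    intro x hx
    exact ne_of_gt hx.1
  have c2 : ContinuousOn (fun p : R3 => f p.1) (Reg q f) := (hf.comp continuous_fst).continuousOn
  have c3 : ContinuousOn (fun p : R3 => w p.1) (Reg q f) := (hw.comp continuous_fst).continuousOn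
  refine c1.prodMk (ContinuousOn.prodMk ?_ ?_)
  · refine ContinuousOn.add (ContinuousOn.log (ContinuousOn.div (by fun_prop) (by fun_prop) ?_) ?_) c3
    · rintro x ⟨h1, h2, h3, h4, h5⟩
      linarith
    · rintro x ⟨h1, h2, h3, h4, h5⟩
      exact ne_of_gt (div_pos (by linarith) (by linarith))
  · refine ContinuousOn.log (ContinuousOn.mul (ContinuousOn.div
      (ContinuousOn.sub (by fun_prop) c2) (by fun_prop) ?_) continuousOn_const) ?_
    · rintro x ⟨h1, h2, h3, h4, h5⟩
      linarith
    · rintro x ⟨h1, h2, h3, h4, h5⟩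
      exact ne_of_gt (mul_pos (div_pos (by linarith) (by linarith)) (by norm_num))

end tau


section att

variable {l : Om → Ty} {t : TopologicalSpace X} {α : Om} {σ : Str} {q : Ty} {f w : ℝ → ℝ}
  (hf : Continuous f) (hw : Continuous w) (hb : ∀ x, |f x| ≤ 3 / 4)

theorem att_ray {E : R3 → X} {p : R3} (hp : p ∈ Ray) :
    att α E q f w p = Sum.inr (α, p.1.toNNReal) := by
  unfold att; rw [if_pos hp]

theorem att_off {E : R3 → X} {p : R3} (hp : p ∉ Ray) :
    att α E q f w p = E (tau q f w (par p)) := by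
  unfold att; rw [if_neg hp]

include hb in
/-- a point off the ray goes to a point of the region `Reg q f` with first coordinate `1 / uu p` -/
theorem att_off' {E : R3 → X} {p : R3} (hp : p ∉ Ray) :
    ∃ p' ∈ Reg q f, p'.1 = 1 / uu p ∧ att α E q f w p = E p' := by
  have h1 : 0 < (par p).1 := uu_pos hp
  exact ⟨tau q f w (par p), tau_mem hb h1, rfl, att_off hp⟩

/-- points of the region are reached -/
theorem att_reg {E : R3 → X} {p : R3} (hp : p ∈ Reg q f) :
    pari (tauI q f w p) ∉ Ray ∧ att α E q f w (pari (tauI q f w p)) = E p := by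
  have h1 : 0 < (tauI q f w p).1 := one_div_pos.2 hp.1
  have h2 := pari_notMem h1
  refine ⟨h2, ?_⟩
  rw [att_off h2, par_pari h1, tau_tauI hp]

theorem j20124_notMem_XX (α : Om) (a : NNReal) : (Sum.inr (α, a) : X) ∉ XX α := by
  intro h
  exact lt_irrefl α h

include hf hw hb in
theorem att_Att (h : Adm l t α σ) (hX : IsOpen[t] (XX α)) : Att t α (att α σ.E q f w) := by
  obtain ⟨hpre, hesc⟩ := h
  have hoff : ∀ p ∉ Ray, att α σ.E q f w p ∈ XX α := by
    intro p hp
    obtain ⟨p', h1, -, h3⟩ := att_off' (α := α) (w := w) (q := q) hb (E := σ.E) hp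
    rw [h3]
    exact hpre.maps p' (Reg_subset hb h1)
  refine ⟨?_, ?_, hoff, ?_, ?_, ?_⟩
  · intro a b hab
    by_cases ha : a ∈ Ray <;> by_cases hb' : b ∈ Ray
    · rw [att_ray ha, att_ray hb'] at hab
      have h1 := Sum.inr_injective hab
      have h2 : a.1.toNNReal = b.1.toNNReal := congrArg Prod.snd h1
      have h3 : a.1 = b.1 := (Real.toNNReal_eq_toNNReal_iff ha.1 hb'.1).1 h2
      exact Prod.ext h3 (ha.2.trans hb'.2.symm)
    · exfalso
      have h1 := hoff b hb'
      rw [← hab, att_ray ha] at h1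
      exact j20124_notMem_XX _ _ h1
    · exfalso
      have h1 := hoff a ha
      rw [hab, att_ray hb'] at h1
      exact j20124_notMem_XX _ _ h1
    · rw [att_off ha, att_off hb'] at hab
      have ha1 : 0 < (par a).1 := uu_pos ha
      have hb1 : 0 < (par b).1 := uu_pos hb'
      have h1 := hpre.inj (Reg_subset hb (tau_mem (q := q) (w := w) hb ha1))
        (Reg_subset hb (tau_mem (q := q) (w := w) hb hb1)) hab
      have h2 := congrArg (tauI q f w) h1
      rw [tauI_tau hb ha1, tauI_tau hb hb1] at h2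
      rw [← pari_par ha, ← pari_par hb', h2]
  · intro a ha
    exact att_ray ⟨ha, rfl⟩
  · intro V hV
    have hS := hpre.cont V hV
    have hpos : IsOpen {p : R3 | 0 < p.1} := isOpen_lt continuous_const continuous_fst
    have h1 : IsOpen ({p : R3 | 0 < p.1} ∩ tau q f w ⁻¹' (S ∩ σ.E ⁻¹' V)) :=
      (tau_continuousOn hf hw).isOpen_inter_preimage hpos hS
    have h2 := par_continuousOn.isOpen_inter_preimage isClosed_Ray.isOpen_compl h1
    convert h2 using 1
    ext x
    simp only [mem_inter_iff, mem_preimage, mem_compl_iff]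
    constructor
    · rintro ⟨hx, hx'⟩
      have hx1 : 0 < (par x).1 := uu_pos hx'
      rw [att_off hx'] at hx
      exact ⟨hx', hx1, Reg_subset hb (tau_mem hb hx1), hx⟩
    · rintro ⟨hx', -, -, hx⟩
      rw [att_off hx']
      exact ⟨hx, hx'⟩
  · intro U hU hUo
    have hW : IsOpen (Reg q f ∩ (fun p => pari (tauI q f w p)) ⁻¹' U) :=
      (pari_continuous.comp_continuousOn (tauI_continuousOn hf hw)).isOpen_inter_preimage
        (isOpen_Reg hf) hUo
    have h1 := hpre.opn _ (fun p hp => Reg_subset hb hp.1) hW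
    have e : att α σ.E q f w '' U = σ.E '' (Reg q f ∩ (fun p => pari (tauI q f w p)) ⁻¹' U) := by
      ext y
      constructor
      · rintro ⟨x, hx, rfl⟩
        have hx' : x ∉ Ray := hU hx
        have hx1 : 0 < (par x).1 := uu_pos hx'
        refine ⟨tau q f w (par x), ⟨tau_mem hb hx1, ?_⟩, (att_off hx').symm⟩
        rw [mem_preimage, tauI_tau hb hx1, pari_par hx']
        exact hx
      · rintro ⟨p, ⟨hp, hpU⟩, rfl⟩
        exact ⟨pari (tauI q f w p), hpU, (att_reg hp).2⟩
    rw [e]
    exact h1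
  · intro x hx
    obtain ⟨V, hV, hxV, k, hk⟩ := hesc x hx
    refine ⟨V ∩ XX α, @IsOpen.inter X t V (XX α) hV hX, ⟨hxV, hx⟩, ?_⟩
    intro y hy
    refine ⟨{z | uu z < 1 / ((k : ℝ) + 1)}, isOpen_lt uu_continuous continuous_const, ?_, ?_⟩
    · show uu y < 1 / ((k : ℝ) + 1)
      rw [uu_ray hy]
      positivity
    · intro z hz hzV
      have hz' : uu z < 1 / ((k : ℝ) + 1) := hz
      by_cases hzR : z ∈ Ray
      · rw [att_ray hzR] at hzV
        exact j20124_notMem_XX _ _ hzV.2
      · obtain ⟨p', h1, h2, h3⟩ := att_off' (α := α) (w := w) (q := q) hb (E := σ.E) hzR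
        rw [h3] at hzV
        refine hk p' (Reg_subset hb h1) ?_ hzV.1
        rw [h2]
        have hu := uu_pos hzR
        have h4 : (k : ℝ) + 1 < 1 / uu z := by
          rw [lt_div_iff₀ hu]
          rw [lt_div_iff₀ (by positivity)] at hz'
          linarith
        linarith

end att

end Pool.Agent.Helper732.HP
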