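import Pool.Agent.Helper732.HP.D

set_option autoImplicit false

open Set Filter Topology

namespace Pool.Agent.Helper732.HP

theorem pre_lift {l : Om → Ty} {t t' : TopologicalSpace X} {β γ : Om} {σ : Str} (hβγ : β ≤ γ)
    (ht : ∀ V : Set X, IsOpen[t'] V → IsOpen[t] V)
    (ht' : ∀ V ⊆ XX β, IsOpen[t] V → IsOpen[t'] V) (h : Pre l t β σ) : Pre l t' γ σ where
  maps p hp := XX_mono hβγ (h.maps p hp)
  inj := h.inj
  cont V hV := h.cont V (ht V hV)
  opn U hU ho := by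
    refine ht' _ ?_ (h.opn U hU ho)
    rintro _ ⟨p, hp, rfl⟩
    exact h.maps p (hU hp)
  lev := h.lev
  unm := h.unm

theorem esc_of_tail {t : TopologicalSpace X} {γ : Om} {k : ℕ} {σ ρ : Str} (h : Esc t γ σ)
    (htl : TailEq k σ ρ) : Esc t γ ρ := by
  intro x hx
  obtain ⟨V, hV, hxV, k1, hk1⟩ := h x hx
  refine ⟨V, hV, hxV, max k k1, fun p hp hk => ?_⟩
  have h1 : (k : ℝ) ≤ p.1 := le_trans (by exact_mod_cast le_max_left k k1) hk
  have h2 : (k1 : ℝ) ≤ p.1 := le_trans (by exact_mod_cast le_max_right k k1) hk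
  rw [htl.eqE p hp h1]
  exact hk1 p hp h2

end Pool.Agent.Helper732.HP
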