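import Mathlib

/-!
# Definitions: attaching rays to a growing 3-manifold
-/

set_option autoImplicit false

open Set Filter Topology

namespace Pool.Agent.Helper732.HP

/-- the countable ordinals -/
abbrev Om : Type := (Cardinal.aleph 1 : Cardinal.{0}).ord.ToType

/-- three dimensional space -/
abbrev R3 : Type := ℝ × ℝ × ℝ

/-- the underlying set of the manifold: a copy of `R3` and one closed ray for each `α` -/
abbrev X : Type := R3 ⊕ (Om × NNReal)

/-- the part of `X` present at stage `α` -/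
def XX (α : Om) : Set X := {x | Sum.elim (fun _ => True) (fun y => y.1 < α) x}

/-- the types; the type `0` is below the incomparable types `1` and `2` -/
abbrev Ty : Type := Fin 3

/-- the order of the types -/
def R (a b : Ty) : Prop := a = 0 ∨ a = b

/-- the type of a point -/
def lam (l : Om → Ty) (x : X) : Ty := Sum.elim (fun _ => 0) (fun y => l y.1) x

open Classical in
/-- the type of a height -/
noncomputable def ty (y : ℝ) : Ty := if y ≤ 1 then 2 else if y < 2 then 0 else 1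

/-- the heights of the marks -/
noncomputable def hg (m : Ty) : ℝ := if m = 0 then 3 / 2 else if m = 1 then 5 / 2 else 1 / 2

/-- the lower bound of the attaching tube of type `q` -/
noncomputable def lo (q : Ty) : ℝ := if q = 2 then 0 else 9 / 8

/-- the upper bound of the attaching tube of type `q` -/
noncomputable def hi (q : Ty) : ℝ := if q = 1 then 3 else 15 / 8

/-- the topology on `X` given by the charts `inl` and `e β`, `β ∈ s` -/
def top (e : Om → R3 → X) (s : Set Om) : TopologicalSpace X where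
  IsOpen U := IsOpen (Sum.inl ⁻¹' U : Set R3) ∧ ∀ β ∈ s, IsOpen (e β ⁻¹' U)
  isOpen_univ := by simp
  isOpen_inter U V hU hV := by
    refine ⟨?_, fun β hβ => ?_⟩
    · rw [preimage_inter]; exact hU.1.inter hV.1
    · rw [preimage_inter]; exact (hU.2 β hβ).inter (hV.2 β hβ)
  isOpen_sUnion C hC := by
    refine ⟨?_, fun β hβ => ?_⟩
    · rw [preimage_sUnion]
      exact isOpen_biUnion fun t ht => (hC t ht).1
    · rw [preimage_sUnion]
      exact isOpen_biUnion fun t ht => (hC t ht).2 β hβ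

/-- the closed ray in `R3` -/
def Ray : Set R3 := {w | 0 ≤ w.1 ∧ w.2 = 0}

/-- `g` attaches the ray number `β` to the part `XX β` with the topology `t` -/
structure Att (t : TopologicalSpace X) (β : Om) (g : R3 → X) : Prop where
  inj : Function.Injective g
  ray : ∀ a : ℝ, 0 ≤ a → g (a, 0) = Sum.inr (β, a.toNNReal)
  off : ∀ w ∉ Ray, g w ∈ XX β
  cont : ∀ V : Set X, IsOpen[t] V → IsOpen (g ⁻¹' V ∩ Rayᶜ)
  opn : ∀ U ⊆ Rayᶜ, IsOpen U → IsOpen[t] (g '' U)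
  sep : ∀ x ∈ XX β, ∃ V : Set X, IsOpen[t] V ∧ x ∈ V ∧ ∀ w ∈ Ray, ∃ B : Set R3,
    IsOpen B ∧ w ∈ B ∧ ∀ w' ∈ B, g w' ∉ V

/-- the half strip -/
def S : Set R3 := {p | 0 < p.1 ∧ 0 < p.2.1 ∧ p.2.1 < 3 ∧ -1 < p.2.2 ∧ p.2.2 < 1}

/-- data of a strip: the map, the marked indices, the levels of the marks -/
structure Str where
  E : R3 → X
  J : Set ℕ
  n : ℕ → Ty

/-- the marked point number `j` of type `m` -/
noncomputable def mk (j : ℕ) (m : Ty) : R3 := ((j : ℝ) + 1 / 2, hg m, 0)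

/-- strips without the escaping condition -/
structure Pre (l : Om → Ty) (t : TopologicalSpace X) (α : Om) (σ : Str) : Prop where
  maps : ∀ p ∈ S, σ.E p ∈ XX α
  inj : InjOn σ.E S
  cont : ∀ V : Set X, IsOpen[t] V → IsOpen (S ∩ σ.E ⁻¹' V)
  opn : ∀ U ⊆ S, IsOpen U → IsOpen[t] (σ.E '' U)
  lev : ∀ p ∈ S, R (lam l (σ.E p)) (ty p.2.1)
  unm : (σ.J)ᶜ.Infinite

/-- the tails of the strip escape locally -/
def Esc (t : TopologicalSpace X) (α : Om) (σ : Str) : Prop :=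
  ∀ x ∈ XX α, ∃ V : Set X, IsOpen[t] V ∧ x ∈ V ∧ ∃ k : ℕ, ∀ p ∈ S, (k : ℝ) ≤ p.1 → σ.E p ∉ V

/-- admissible strips at stage `α` -/
def Adm (l : Om → Ty) (t : TopologicalSpace X) (α : Om) (σ : Str) : Prop :=
  Pre l t α σ ∧ Esc t α σ

/-- `σ'` (at a later stage) continues `σ` (at stage `β`) from the place `k` -/
structure Ext (β : Om) (k : ℕ) (σ σ' : Str) : Prop where
  eqE : ∀ p ∈ S, p.1 < k → σ'.E p = σ.E p
  eqJ : ∀ j < k, (j ∈ σ'.J ↔ j ∈ σ.J) ∧ σ'.n j = σ.n j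
  back : ∀ p ∈ S, (k : ℝ) ≤ p.1 → σ'.E p ∈ XX β →
    ∃ p0 ∈ S, (k : ℝ) ≤ p0.1 ∧ σ'.E p = σ.E p0 ∧ R (ty p0.2.1) (ty p.2.1)

/-- `σ` and `σ'` agree from the place `k` on -/
structure TailEq (k : ℕ) (σ σ' : Str) : Prop where
  eqE : ∀ p ∈ S, (k : ℝ) ≤ p.1 → σ'.E p = σ.E p
  eqJ : ∀ j, k ≤ j → ((j ∈ σ'.J ↔ j ∈ σ.J) ∧ σ'.n j = σ.n j)

/-- splicing two strips at the place `k` -/
noncomputable def splice (k : ℕ) (σ σ' : Str) : Str where
  E p := if p.1 < k then σ.E p else σ'.E p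
  J := {j | if j < k then j ∈ σ.J else j ∈ σ'.J}
  n j := if j < k then σ.n j else σ'.n j

/-- the marked indices whose points are in `A` -/
def hit (A : Set X) (m : Ty) (σ : Str) : Set ℕ :=
  {j | j ∈ σ.J ∧ R (σ.n j) m ∧ σ.E (mk j (σ.n j)) ∈ A}

/-- limit stages -/
def IsLim (δ : Om) : Prop := (∃ β, β < δ) ∧ ∀ β < δ, ∃ γ < δ, β < γ

/-- `A` is accessible on level `m` at the limit stage `δ` -/
def Acc (l : Om → Ty) (s : Om → Str) (A : Set X) (δ : Om) (m : Ty) : Prop :=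
  IsLim δ ∧ ∀ β < δ, ∀ k : ℕ, ∃ a ∈ A,
    (∃ p ∈ S, (k : ℝ) < p.1 ∧ R (ty p.2.1) m ∧ (s β).E p = a) ∨
    (a ∈ XX δ ∧ a ∉ XX β ∧ R (lam l a) m)

/-- there is a continuation of `s β` from `k` on at the stage `γ` which has a mark in `A` -/
def Cap (l : Om → Ty) (e : Om → R3 → X) (s : Om → Str) (A : Set X) (m : Ty) (β γ : Om) (k : ℕ) :
    Prop :=
  ∃ (k' : ℕ) (ρ : Str), Adm l (top e (Iio γ)) γ ρ ∧ Ext β k (s β) ρ ∧ TailEq k' (s γ) ρ ∧
    ∃ j, k ≤ j ∧ j < k' ∧ j ∈ ρ.J ∧ R (ρ.n j) m ∧ ρ.E (mk j (ρ.n j)) ∈ A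

/-- the tail number `k` of the end of level `n` -/
def Oset (σ : Str) (n : Ty) (k : ℕ) : Set X :=
  σ.E '' {p | p ∈ S ∧ (k : ℝ) < p.1 ∧ R (ty p.2.1) n}

/-- the transition property from stage `β` to stage `α` -/
def TR (l : Om → Ty) (t : TopologicalSpace X) (β α : Om) (σ σ' : Str) : Prop :=
  ∀ k : ℕ, ∃ k' : ℕ, ∃ ρ : Str, Adm l t α ρ ∧ Ext β k σ ρ ∧ TailEq k' σ' ρ

/-! ### The attaching map -/

noncomputable def nrm (p : R3) : ℝ := Real.sqrt (p.1 ^ 2 + p.2.1 ^ 2 + p.2.2 ^ 2)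

noncomputable def uu (p : R3) : ℝ := Real.sqrt ((nrm p - p.1) / 2)

/-- parabolic coordinates off the ray -/
noncomputable def par (p : R3) : R3 := (uu p, p.2.1 / (2 * uu p), p.2.2 / (2 * uu p))

/-- the inverse of `par` -/
def pari (p : R3) : R3 := (p.2.1 ^ 2 + p.2.2 ^ 2 - p.1 ^ 2, 2 * p.1 * p.2.1, 2 * p.1 * p.2.2)

/-- from the half space `u > 0` to the part of the strip with `lo q < y < hi q`, `z > f x` -/
noncomputable def tau (q : Ty) (f w : ℝ → ℝ) (p : R3) : R3 :=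
  (1 / p.1,
    lo q + (hi q - lo q) * Real.exp (p.2.1 - w (1 / p.1)) / (1 + Real.exp (p.2.1 - w (1 / p.1))),
    (f (1 / p.1) + 3 / 4 * Real.exp p.2.2) / (1 + 3 / 4 * Real.exp p.2.2))

open Classical in
/-- the attaching map -/
noncomputable def att (α : Om) (E : R3 → X) (q : Ty) (f w : ℝ → ℝ) (p : R3) : X :=
  if p ∈ Ray then Sum.inr (α, p.1.toNNReal) else E (tau q f w (par p))

/-! ### The next strip -/

/-- the map of `[0,3]` to `[1/8,23/8]` which fixes `1/2`, `3/2`, `5/2` and maps `1` to `9/8` and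
`2` to `15/8` -/
noncomputable def chi (y : ℝ) : ℝ :=
  3 * y / 4 + 1 / 8 + (max 0 (y - 1 / 2) - max 0 (y - 1)) / 2 +
    (max 0 (y - 2) - max 0 (y - 5 / 2)) / 2

/-- the map of the strip, `θ` (for `y`) and `θ'` (for `z`) interpolate to the identity -/
noncomputable def Psi (θ θ' f : ℝ → ℝ) (p : R3) : R3 :=
  (p.1, (1 - θ p.1) * p.2.1 + θ p.1 * chi p.2.1,
    (1 - θ' p.1) * p.2.2 + θ' p.1 * (-1 + (f p.1 + 1) * (4 / 7 + 2 * p.2.2 / 7)))

/-- the next strip -/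
noncomputable def nextStr (σ : Str) (f : ℝ → ℝ) : Str where
  E p := σ.E (Psi (fun _ => 1) (fun _ => 1) f p)
  J := {j | j ∈ σ.J ∧ f ((j : ℝ) + 1 / 2) = 3 / 4}
  n := σ.n

/-! ### The data of the recursion -/

structure Dat where
  σ : Str
  f : ℝ → ℝ
  w : ℝ → ℝ

/-- the attaching maps given by the data -/
noncomputable def eD (l : Om → Ty) (D : Om → Dat) (β : Om) : R3 → X :=
  att β (D β).σ.E (l β) (D β).f (D β).w

/-- the topology at stage `α` -/
noncomputable def TT (l : Om → Ty) (D : Om → Dat) (α : Om) : TopologicalSpace X :=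
  top (eD l D) (Iio α)

/-- the conditions on the functions `f`, `w` for a task `(A, m)` -/
def FW (q : Ty) (σ : Str) (f w : ℝ → ℝ) (A : Set X) (m : Ty) : Prop :=
  {j | j ∈ hit A m σ ∧ f ((j : ℝ) + 1 / 2) = 3 / 4}.Infinite ∧
  (R m q → ∀ r : ℚ, {j : ℕ | j ∈ hit A m σ ∧ f ((j : ℝ) + 1 / 2) = -(3 / 4) ∧
    w ((j : ℝ) + 1 / 2) = r - Real.log ((hg (σ.n j) - lo q) / (hi q - hg (σ.n j)))}.Infinite)

/-- the conditions on the data at stage `α` -/
structure Good (l : Om → Ty) (G : Om → Set X) (D : Om → Dat) (α : Om) : Prop where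
  adm : Adm l (TT l D α) α (D α).σ
  tr : ∀ β < α, TR l (TT l D α) β α (D β).σ (D α).σ
  cf : Continuous (D α).f
  cw : Continuous (D α).w
  bd : ∀ x, |(D α).f x| ≤ 3 / 4
  keep : ∀ j ∈ (D α).σ.J, ¬ R ((D α).σ.n j) (l α) → (D α).f ((j : ℝ) + 1 / 2) = 3 / 4
  cap : ∀ j : ℕ, j ∉ (D α).σ.J → (D α).f ((j : ℝ) + 1 / 2) = -(3 / 4)
  task : ∀ δ ≤ α, ∀ m, Acc l (fun β => (D β).σ) (G δ) δ m →
    FW (l α) (D α).σ (D α).f (D α).w (G δ) m
  next : ∀ β, β ⋖ α → (D α).σ = nextStr (D β).σ (D β).f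

end Pool.Agent.Helper732.HP
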