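import Pool.Agent.Helper732.HP.R0

set_option autoImplicit false

open Set Filter Topology

namespace Pool.Agent.Helper732.HP

/-! ## TARGETS -/

theorem R_ty_zero {y : ℝ} : R (ty y) 0 ↔ 1 < y ∧ y < 2 := by
  unfold R ty
  split_ifs with h1 h2
  · refine ⟨fun h => ?_, fun h => absurd h.1 (not_lt.2 h1)⟩
    rcases h with h | h <;> exact absurd h (by decide)
  · exact ⟨fun _ => ⟨not_le.1 h1, h2⟩, fun _ => Or.inl rfl⟩
  · refine ⟨fun h => ?_, fun h => absurd h.2 h2⟩
    rcases h with h | h <;> exact absurd h (by decide)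

theorem R_ty_one {y : ℝ} : R (ty y) 1 ↔ 1 < y := by
  unfold R ty
  split_ifs with h1 h2
  · refine ⟨fun h => ?_, fun h => absurd h (not_lt.2 h1)⟩
    rcases h with h | h <;> exact absurd h (by decide)
  · exact ⟨fun _ => not_le.1 h1, fun _ => Or.inl rfl⟩
  · exact ⟨fun _ => not_le.1 h1, fun _ => Or.inr rfl⟩

theorem R_ty_two {y : ℝ} : R (ty y) 2 ↔ y < 2 := by
  unfold R ty
  split_ifs with h1 h2
  · exact ⟨fun _ => by linarith, fun _ => Or.inr rfl⟩
  · exact ⟨fun _ => h2, fun _ => Or.inl rfl⟩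
  · refine ⟨fun h => ?_, fun h => absurd h h2⟩
    rcases h with h | h <;> exact absurd h (by decide)

theorem isOpen_ty (n : Ty) : IsOpen {y : ℝ | R (ty y) n} := by
  have hn : n = 0 ∨ n = 1 ∨ n = 2 := by
    revert n; decide
  rcases hn with rfl | rfl | rfl
  · have : {y : ℝ | R (ty y) 0} = Ioo 1 2 := by
      ext y; exact R_ty_zero
    rw [this]; exact isOpen_Ioo
  · have : {y : ℝ | R (ty y) 1} = Ioi 1 := by
      ext y; exact R_ty_one
    rw [this]; exact isOpen_Ioi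
  · have : {y : ℝ | R (ty y) 2} = Iio 2 := by
      ext y; exact R_ty_two
    rw [this]; exact isOpen_Iio

theorem chi_continuous : Continuous chi := by
  unfold chi
  fun_prop

theorem chi_aux_mono {a b y y' : ℝ} (hab : a ≤ b) (h : y ≤ y') :
    max 0 (y - a) - max 0 (y - b) ≤ max 0 (y' - a) - max 0 (y' - b) := by
  rcases le_total 0 (y - a) with h1 | h1 <;> rcases le_total 0 (y - b) with h2 | h2 <;>
  rcases le_total 0 (y' - a) with h3 | h3 <;> rcases le_total 0 (y' - b) with h4 | h4 <;>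
  simp only [max_eq_left, max_eq_right, h1, h2, h3, h4] <;> linarith

theorem chi_strictMono : StrictMono chi := by
  intro y y' h
  have h1 := chi_aux_mono (a := 1 / 2) (b := 1) (by norm_num) h.le
  have h2 := chi_aux_mono (a := 2) (b := 5 / 2) (by norm_num) h.le
  unfold chi
  linarith

theorem chi_hg (m : Ty) : chi (hg m) = hg m := by
  have hm : m = 0 ∨ m = 1 ∨ m = 2 := by
    revert m; decide
  rcases hm with rfl | rfl | rfl
  · have e : hg 0 = 3 / 2 := by unfold hg; rw [if_pos rfl]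
    rw [e]; unfold chi
    rw [max_eq_right (by norm_num), max_eq_right (by norm_num), max_eq_left (by norm_num),
      max_eq_left (by norm_num)]
    norm_num
  · have e : hg 1 = 5 / 2 := by unfold hg; rw [if_neg (by decide), if_pos rfl]
    rw [e]; unfold chi
    rw [max_eq_right (by norm_num), max_eq_right (by norm_num), max_eq_right (by norm_num),
      max_eq_left (by norm_num)]
    norm_num
  · have e : hg 2 = 1 / 2 := by unfold hg; rw [if_neg (by decide), if_neg (by decide)]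
    rw [e]; unfold chi
    rw [max_eq_left (by norm_num), max_eq_left (by norm_num), max_eq_left (by norm_num),
      max_eq_left (by norm_num)]
    norm_num

theorem chi_one : chi 1 = 9 / 8 := by
  unfold chi
  rw [max_eq_right (by norm_num), max_eq_left (by norm_num), max_eq_left (by norm_num),
    max_eq_left (by norm_num)]
  norm_num

theorem chi_two : chi 2 = 15 / 8 := by
  unfold chi
  rw [max_eq_right (by norm_num), max_eq_right (by norm_num), max_eq_left (by norm_num),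
    max_eq_left (by norm_num)]
  norm_num

/-- closed bands -/
noncomputable def cl (n : Ty) : ℝ := if n = 2 then 1 / 8 else 9 / 8

noncomputable def ch (n : Ty) : ℝ := if n = 1 then 23 / 8 else 15 / 8

theorem chi_zero' : chi 0 = 1 / 8 := by
  unfold chi
  rw [max_eq_left (by norm_num), max_eq_left (by norm_num), max_eq_left (by norm_num),
    max_eq_left (by norm_num)]
  norm_num

theorem chi_three' : chi 3 = 23 / 8 := by
  unfold chi
  rw [max_eq_right (by norm_num), max_eq_right (by norm_num), max_eq_right (by norm_num),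
    max_eq_right (by norm_num)]
  norm_num

theorem chi_band {y : ℝ} (h0 : 0 < y) (h3 : y < 3) {n : Ty} (h : R (ty y) n) :
    cl n ≤ chi y ∧ chi y ≤ ch n := by
  have z0 := chi_strictMono h0
  have z3 := chi_strictMono h3
  rw [chi_zero'] at z0
  rw [chi_three'] at z3
  have hn : n = 0 ∨ n = 1 ∨ n = 2 := by
    clear h
    revert n; decide
  rcases hn with rfl | rfl | rfl
  · have h' := R_ty_zero.1 h
    have z1 := chi_strictMono h'.1
    have z2 := chi_strictMono h'.2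
    rw [chi_one] at z1
    rw [chi_two] at z2
    have e1 : cl 0 = 9 / 8 := by unfold cl; rw [if_neg (by decide)]
    have e2 : ch 0 = 15 / 8 := by unfold ch; rw [if_neg (by decide)]
    rw [e1, e2]
    exact ⟨z1.le, z2.le⟩
  · have h' := R_ty_one.1 h
    have z1 := chi_strictMono h'
    rw [chi_one] at z1
    have e1 : cl 1 = 9 / 8 := by unfold cl; rw [if_neg (by decide)]
    have e2 : ch 1 = 23 / 8 := by unfold ch; rw [if_pos rfl]
    rw [e1, e2]
    exact ⟨z1.le, z3.le⟩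
  · have h' := R_ty_two.1 h
    have z2 := chi_strictMono h'
    rw [chi_two] at z2
    have e1 : cl 2 = 1 / 8 := by unfold cl; rw [if_pos rfl]
    have e2 : ch 2 = 15 / 8 := by unfold ch; rw [if_neg (by decide)]
    rw [e1, e2]
    exact ⟨z0.le, z2.le⟩

theorem band_ty {y : ℝ} {n : Ty} (h : cl n ≤ y) (h' : y ≤ ch n) :
    0 < y ∧ y < 3 ∧ R (ty y) n := by
  have hn : n = 0 ∨ n = 1 ∨ n = 2 := by
    clear h h'
    revert n; decide
  rcases hn with rfl | rfl | rfl
  · have e1 : cl 0 = 9 / 8 := by unfold cl; rw [if_neg (by decide)]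
    have e2 : ch 0 = 15 / 8 := by unfold ch; rw [if_neg (by decide)]
    rw [e1] at h
    rw [e2] at h'
    exact ⟨by linarith, by linarith, R_ty_zero.2 ⟨by linarith, by linarith⟩⟩
  · have e1 : cl 1 = 9 / 8 := by unfold cl; rw [if_neg (by decide)]
    have e2 : ch 1 = 23 / 8 := by unfold ch; rw [if_pos rfl]
    rw [e1] at h
    rw [e2] at h'
    exact ⟨by linarith, by linarith, R_ty_one.2 (by linarith)⟩
  · have e1 : cl 2 = 1 / 8 := by unfold cl; rw [if_pos rfl]
    have e2 : ch 2 = 15 / 8 := by unfold ch; rw [if_neg (by decide)]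
    rw [e1] at h
    rw [e2] at h'
    exact ⟨by linarith, by linarith, R_ty_two.2 (by linarith)⟩

theorem hg_band (m : Ty) : 0 < hg m ∧ hg m < 3 ∧ ty (hg m) = m := by
  have hm : m = 0 ∨ m = 1 ∨ m = 2 := by
    revert m; decide
  rcases hm with rfl | rfl | rfl
  · have e : hg 0 = 3 / 2 := by unfold hg; rw [if_pos rfl]
    rw [e]
    refine ⟨by norm_num, by norm_num, ?_⟩
    unfold ty
    rw [if_neg (by norm_num), if_pos (by norm_num)]
  · have e : hg 1 = 5 / 2 := by unfold hg; rw [if_neg (by decide), if_pos rfl]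
    rw [e]
    refine ⟨by norm_num, by norm_num, ?_⟩
    unfold ty
    rw [if_neg (by norm_num), if_neg (by norm_num)]
  · have e : hg 2 = 1 / 2 := by unfold hg; rw [if_neg (by decide), if_neg (by decide)]
    rw [e]
    refine ⟨by norm_num, by norm_num, ?_⟩
    unfold ty
    rw [if_pos (by norm_num)]

/-- the `y` coordinate of `Psi` -/
noncomputable def PsY (a y : ℝ) : ℝ := (1 - a) * y + a * chi y

/-- the `z` coordinate of `Psi` -/
noncomputable def PsZ (b c z : ℝ) : ℝ := (1 - b) * z + b * (-1 + (c + 1) * (4 / 7 + 2 * z / 7))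

theorem PsY_mono {a : ℝ} (h : 0 ≤ a ∧ a ≤ 1) : StrictMono (PsY a) := by
  intro y y' hyy
  have h1 := chi_strictMono hyy
  unfold PsY
  rcases h.1.eq_or_lt with h2 | h2
  · rw [← h2]; linarith
  · have h3 : a * chi y < a * chi y' := mul_lt_mul_of_pos_left h1 h2
    have h4 : (1 - a) * y ≤ (1 - a) * y' := mul_le_mul_of_nonneg_left hyy.le (by linarith [h.2])
    linarith

theorem PsZ_mono {b c : ℝ} (h : 0 ≤ b ∧ b ≤ 1) (hc : |c| ≤ 3 / 4) : StrictMono (PsZ b c) := by
  intro z z' hz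
  have hc1 := (abs_le.1 hc).1
  unfold PsZ
  have h1 : 0 < (1 - b) + b * ((c + 1) * (2 / 7)) := by
    rcases h.1.eq_or_lt with h2 | h2
    · rw [← h2]; norm_num
    · have : 0 < b * ((c + 1) * (2 / 7)) := mul_pos h2 (mul_pos (by linarith) (by norm_num))
      linarith [h.2]
  have h2 := mul_lt_mul_of_pos_right hz h1
  linarith

theorem PsY_mem {a y : ℝ} (h : 0 ≤ a ∧ a ≤ 1) (hy : 0 < y) (hy3 : y < 3) :
    0 < PsY a y ∧ PsY a y < 3 := by
  have z0 := chi_strictMono hy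
  have z3 := chi_strictMono hy3
  rw [chi_zero'] at z0
  rw [chi_three'] at z3
  unfold PsY
  rcases h.1.eq_or_lt with h2 | h2
  · rw [← h2]; constructor <;> linarith
  · have h3 : 0 < a * chi y := mul_pos h2 (by linarith)
    have h3' : a * chi y < a * 3 := mul_lt_mul_of_pos_left (by linarith) h2
    have h4 : 0 ≤ (1 - a) * y := mul_nonneg (by linarith [h.2]) hy.le
    have h4' : (1 - a) * y ≤ (1 - a) * 3 := mul_le_mul_of_nonneg_left hy3.le (by linarith [h.2])
    constructor <;> linarith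

/-- a convex combination of two numbers above `c` is above `c` -/
theorem PsY_gt {a y c : ℝ} (h : 0 ≤ a ∧ a ≤ 1) (hy : c < y) (hy' : c < chi y) :
    c < PsY a y := by
  unfold PsY
  rcases h.1.eq_or_lt with h2 | h2
  · rw [← h2]; linarith
  · have h3 : a * c < a * chi y := mul_lt_mul_of_pos_left hy' h2
    have h4 : (1 - a) * c ≤ (1 - a) * y := mul_le_mul_of_nonneg_left hy.le (by linarith [h.2])
    linarith

theorem PsY_lt {a y c : ℝ} (h : 0 ≤ a ∧ a ≤ 1) (hy : y < c) (hy' : chi y < c) :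
    PsY a y < c := by
  unfold PsY
  rcases h.1.eq_or_lt with h2 | h2
  · rw [← h2]; linarith
  · have h3 : a * chi y < a * c := mul_lt_mul_of_pos_left hy' h2
    have h4 : (1 - a) * y ≤ (1 - a) * c := mul_le_mul_of_nonneg_left hy.le (by linarith [h.2])
    linarith

theorem PsY_ty {a y : ℝ} (h : 0 ≤ a ∧ a ≤ 1) : R (ty (PsY a y)) (ty y) := by
  have hcases : (ty y = 0 ∨ ty y = 1) ∨ ty y = 2 := by
    generalize ty y = n
    revert n; decide
  rcases hcases with (h1 | h1) | h1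
  · rw [h1]
    have h2 := R_ty_zero.1 (Or.inl h1 : R (ty y) 0)
    have z1 := chi_strictMono h2.1
    have z2 := chi_strictMono h2.2
    rw [chi_one] at z1
    rw [chi_two] at z2
    exact R_ty_zero.2 ⟨PsY_gt h h2.1 (by linarith), PsY_lt h h2.2 (by linarith)⟩
  · rw [h1]
    have h2 := R_ty_one.1 (Or.inr h1 : R (ty y) 1)
    have z1 := chi_strictMono h2
    rw [chi_one] at z1
    exact R_ty_one.2 (PsY_gt h h2 (by linarith))
  · rw [h1]
    have h2 := R_ty_two.1 (Or.inr h1 : R (ty y) 2)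
    have z2 := chi_strictMono h2
    rw [chi_two] at z2
    exact R_ty_two.2 (PsY_lt h h2 (by linarith))

theorem PsZ_one {c z : ℝ} (hc : |c| ≤ 3 / 4) (h1 : -1 < z) (h2 : z < 1) :
    -1 + (c + 1) * (4 / 7 + 2 * z / 7) < c ∧ -(13 / 14) ≤ -1 + (c + 1) * (4 / 7 + 2 * z / 7) ∧
      -1 + (c + 1) * (4 / 7 + 2 * z / 7) ≤ 1 / 2 := by
  obtain ⟨c1, c2⟩ := abs_le.1 hc
  refine ⟨?_, ?_, ?_⟩ <;> nlinarith

theorem PsZ_mem {b c z : ℝ} (h : 0 ≤ b ∧ b ≤ 1) (hc : |c| ≤ 3 / 4) (h1 : -1 < z) (h2 : z < 1) :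
    -1 < PsZ b c z ∧ PsZ b c z < 1 := by
  obtain ⟨-, k2, k3⟩ := PsZ_one hc h1 h2
  unfold PsZ
  obtain ⟨ζ, hζ⟩ : ∃ ζ, ζ = -1 + (c + 1) * (4 / 7 + 2 * z / 7) := ⟨_, rfl⟩
  rw [← hζ] at k2 k3 ⊢
  rcases h.1.eq_or_lt with h3 | h3
  · rw [← h3]
    constructor <;> linarith
  · have e1 : b * (-1) < b * ζ := mul_lt_mul_of_pos_left (by linarith) h3
    have e2 : b * ζ < b * 1 := mul_lt_mul_of_pos_left (by linarith) h3
    have e3 : (1 - b) * (-1) ≤ (1 - b) * z := mul_le_mul_of_nonneg_left h1.le (by linarith [h.2])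
    have e4 : (1 - b) * z ≤ (1 - b) * 1 := mul_le_mul_of_nonneg_left h2.le (by linarith [h.2])
    constructor <;> linarith

section Psi

variable {θ θ' f : ℝ → ℝ} (hθ : Continuous θ) (hθ' : Continuous θ') (hf : Continuous f)
  (h0 : ∀ x, 0 ≤ θ x ∧ θ x ≤ 1) (h0' : ∀ x, 0 ≤ θ' x ∧ θ' x ≤ 1) (hb : ∀ x, |f x| ≤ 3 / 4)

theorem Psi_eq (p : R3) : Psi θ θ' f p = (p.1, PsY (θ p.1) p.2.1, PsZ (θ' p.1) (f p.1) p.2.2) := rfl

include hθ hθ' hf in
theorem Psi_continuous : Continuous (Psi θ θ' f) := by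
  have hc := chi_continuous
  unfold Psi
  fun_prop

include h0 h0' hb in
theorem Psi_mapsTo {p : R3} (hp : p ∈ S) : Psi θ θ' f p ∈ S := by
  obtain ⟨h1, h2, h2', h3, h4⟩ := hp
  rw [Psi_eq]
  exact ⟨h1, (PsY_mem (h0 _) h2 h2').1, (PsY_mem (h0 _) h2 h2').2,
    (PsZ_mem (h0' _) (hb _) h3 h4).1, (PsZ_mem (h0' _) (hb _) h3 h4).2⟩

include h0 h0' hb in
theorem Psi_injOn : InjOn (Psi θ θ' f) S := by
  rintro ⟨x, y, z⟩ hp ⟨x', y', z'⟩ hp' he
  rw [Psi_eq, Psi_eq] at he
  simp only [Prod.mk.injEq] at he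
  obtain ⟨e1, e2, e3⟩ := he
  subst e1
  have e4 : y = y' := (PsY_mono (h0 x)).injective e2
  have e5 : z = z' := (PsZ_mono (h0' x) (hb x)).injective e3
  rw [e4, e5]

include hθ hθ' hf h0 h0' hb in
theorem Psi_open {U : Set R3} (hU : U ⊆ S) (ho : IsOpen U) : IsOpen (Psi θ θ' f '' U) := by
  have hc := chi_continuous
  rw [isOpen_iff_mem_nhds]
  rintro _ ⟨⟨x0, y0, z0⟩, hp, rfl⟩
  obtain ⟨δ, hδ, hball⟩ := Metric.isOpen_iff.1 ho _ hp
  obtain ⟨ε, hε⟩ : ∃ ε, ε = δ / 2 := ⟨_, rfl⟩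
  have hε0 : 0 < ε := by rw [hε]; linarith
  have hbox : ∀ x y z : ℝ, |x - x0| ≤ ε → |y - y0| ≤ ε → |z - z0| ≤ ε → (x, y, z) ∈ U := by
    intro x y z hx hy hz
    apply hball
    rw [Metric.mem_ball, Prod.dist_eq, Prod.dist_eq]
    simp only [Real.dist_eq]
    refine max_lt (by linarith) (max_lt (by linarith) (by linarith))
  obtain ⟨V, hV⟩ : ∃ V : Set R3, V = {q : R3 | |q.1 - x0| < ε ∧ PsY (θ q.1) (y0 - ε) < q.2.1 ∧
    q.2.1 < PsY (θ q.1) (y0 + ε) ∧ PsZ (θ' q.1) (f q.1) (z0 - ε) < q.2.2 ∧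
    q.2.2 < PsZ (θ' q.1) (f q.1) (z0 + ε)} := ⟨_, rfl⟩
  have hVo : IsOpen V := by
    rw [hV]
    have c1 : ∀ y, Continuous fun q : R3 => PsY (θ q.1) y := by
      intro y; unfold PsY; fun_prop
    have c2 : ∀ z, Continuous fun q : R3 => PsZ (θ' q.1) (f q.1) z := by
      intro z; unfold PsZ; fun_prop
    have d0 : Continuous fun q : R3 => |q.1 - x0| := by fun_prop
    have d1 : Continuous fun q : R3 => q.2.1 := by fun_prop
    have d2 : Continuous fun q : R3 => q.2.2 := by fun_prop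
    exact (isOpen_lt d0 continuous_const).inter
      ((isOpen_lt (c1 _) d1).inter ((isOpen_lt d1 (c1 _)).inter
        ((isOpen_lt (c2 _) d2).inter (isOpen_lt d2 (c2 _)))))
  have hVm : Psi θ θ' f (x0, y0, z0) ∈ V := by
    rw [hV, Psi_eq]
    refine ⟨by simpa using hε0, ?_, ?_, ?_, ?_⟩
    · exact PsY_mono (h0 x0) (by linarith)
    · exact PsY_mono (h0 x0) (by linarith)
    · exact PsZ_mono (h0' x0) (hb x0) (by linarith)
    · exact PsZ_mono (h0' x0) (hb x0) (by linarith)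
  refine Filter.mem_of_superset (hVo.mem_nhds hVm) ?_
  rintro ⟨x, y', z'⟩ hq
  rw [hV] at hq
  obtain ⟨q1, q2, q3, q4, q5⟩ := hq
  simp only at q1 q2 q3 q4 q5
  have cy : Continuous (PsY (θ x)) := by unfold PsY; fun_prop
  have cz : Continuous (PsZ (θ' x) (f x)) := by unfold PsZ; fun_prop
  obtain ⟨y, hy, hy2⟩ := intermediate_value_Icc (show y0 - ε ≤ y0 + ε by linarith)
    cy.continuousOn ⟨q2.le, q3.le⟩
  obtain ⟨z, hz, hz2⟩ := intermediate_value_Icc (show z0 - ε ≤ z0 + ε by linarith)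
    cz.continuousOn ⟨q4.le, q5.le⟩
  refine ⟨(x, y, z), hbox x y z q1.le ?_ ?_, ?_⟩
  · rw [abs_le]; constructor <;> linarith [hy.1, hy.2]
  · rw [abs_le]; constructor <;> linarith [hz.1, hz.2]
  · rw [Psi_eq]
    simp only [hy2, hz2]

include h0 in
theorem Psi_ty {p : R3} (hp : p ∈ S) : R (ty (Psi θ θ' f p).2.1) (ty p.2.1) := by
  exact PsY_ty (h0 p.1)

theorem Psi_one_z {p : R3} (hp : p ∈ S) (hb : ∀ x, |f x| ≤ 3 / 4) (h1 : θ' p.1 = 1) :
    (Psi θ θ' f p).2.2 < f p.1 ∧ -(13 / 14) ≤ (Psi θ θ' f p).2.2 ∧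
      (Psi θ θ' f p).2.2 ≤ 1 / 2 := by
  have h2 : (Psi θ θ' f p).2.2 = -1 + (f p.1 + 1) * (4 / 7 + 2 * p.2.2 / 7) := by
    show (1 - θ' p.1) * p.2.2 + θ' p.1 * (-1 + (f p.1 + 1) * (4 / 7 + 2 * p.2.2 / 7)) = _
    rw [h1]; ring
  rw [h2]
  exact PsZ_one (hb _) hp.2.2.2.1 hp.2.2.2.2

theorem Psi_mk (j : ℕ) (m : Ty) (h : θ' ((j : ℝ) + 1 / 2) = 0 ∨ f ((j : ℝ) + 1 / 2) = 3 / 4) :
    Psi θ θ' f (mk j m) = mk j m := by
  unfold Psi mk
  simp only [Prod.mk.injEq, true_and, chi_hg]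
  refine ⟨by ring, ?_⟩
  rcases h with h | h
  · rw [h]; ring
  · rw [h]; ring

theorem Psi_id {p : R3} (h : θ p.1 = 0) (h' : θ' p.1 = 0) : Psi θ θ' f p = p := by
  unfold Psi
  rw [h, h']
  refine Prod.ext rfl (Prod.ext ?_ ?_)
  · simp
  · simp

end Psi

end Pool.Agent.Helper732.HP
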