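import Pool.Agent.Helper732.HP.O
import Pool.Agent.Helper732.HP.D

set_option autoImplicit false

open Set Filter Topology

namespace Pool.Agent.Helper732.HP

/-! ## TARGETS -/

/-- the limit of a chain of strips -/
theorem lim_str {l : Om → Ty} {e : Om → R3 → X} {δ : Om}
    (h : ∀ β < δ, Att (top e (Iio β)) β (e β))
    (b : ℕ → Om) (hb : ∀ i, b i < δ) (hbm : Monotone b) (k : ℕ → ℕ) (hk : StrictMono k)
    (τ : ℕ → Str) (hτ : ∀ i, Pre l (top e (Iio (b i))) (b i) (τ i))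
    (hext : ∀ i, Ext (b i) (k i) (τ i) (τ (i + 1)))
    (hunm : ∀ i, ∃ j, k i ≤ j ∧ j < k (i + 1) ∧ j ∉ (τ (i + 1)).J) :
    ∃ σ : Str, Pre l (top e (Iio δ)) δ σ ∧ ∀ i, Ext (b i) (k i) (τ i) σ := by
  classical
  have hEx : ∀ i j, i ≤ j → Ext (b i) (k i) (τ i) (τ j) := by
    intro i j hij
    induction j, hij using Nat.le_induction with
    | base => exact Ext.refl_of _
    | succ j hij ih => exact Ext.trans (hbm hij) (hk.monotone hij) ih (hext j)
  have hN : ∀ x : ℝ, ∃ i, x < (k i : ℝ) := by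
    intro x
    obtain ⟨i, hi⟩ := exists_nat_gt x
    refine ⟨i, lt_of_lt_of_le hi ?_⟩
    exact_mod_cast hk.id_le i
  let N : ℝ → ℕ := fun x => Nat.find (hN x)
  have hN1 : ∀ x, x < (k (N x) : ℝ) := fun x => Nat.find_spec (hN x)
  have hN2 : ∀ x i, x < (k i : ℝ) → N x ≤ i := fun x i hi => Nat.find_min' (hN x) hi
  let σ : Str := ⟨fun p => (τ (N p.1)).E p, {j | j ∈ (τ (N (j : ℝ))).J},
    fun j => (τ (N (j : ℝ))).n j⟩
  have hE : ∀ i, ∀ p ∈ S, p.1 < k i → σ.E p = (τ i).E p := by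
    intro i p hp hpi
    exact ((hEx _ _ (hN2 _ _ hpi)).eqE p hp (hN1 _)).symm
  have hJ : ∀ i, ∀ j < k i, (j ∈ σ.J ↔ j ∈ (τ i).J) ∧ σ.n j = (τ i).n j := by
    intro i j hj
    have hj' : (j : ℝ) < k i := by exact_mod_cast hj
    have h1 := hN1 (j : ℝ)
    have h1' : j < k (N (j : ℝ)) := by exact_mod_cast h1
    have h2 := (hEx _ _ (hN2 _ _ hj')).eqJ j h1'
    exact ⟨h2.1.symm, h2.2.symm⟩
  have hkm : ∀ i j, i ≤ j → (k i : ℝ) ≤ k j := by
    intro i j hij
    exact_mod_cast hk.monotone hij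
  refine ⟨σ, ⟨?_, ?_, ?_, ?_, ?_, ?_⟩, fun i => ⟨?_, ?_, ?_⟩⟩
  · intro p hp
    exact XX_mono (hb (N p.1)).le ((hτ (N p.1)).maps p hp)
  · intro p hp q hq hpq
    have h1 : p.1 < k (max (N p.1) (N q.1)) := lt_of_lt_of_le (hN1 _) (hkm _ _ (le_max_left _ _))
    have h2 : q.1 < k (max (N p.1) (N q.1)) := lt_of_lt_of_le (hN1 _) (hkm _ _ (le_max_right _ _))
    rw [hE _ p hp h1, hE _ q hq h2] at hpq
    exact (hτ _).inj hp hq hpq
  · intro V hV
    have h1 : S ∩ σ.E ⁻¹' V = ⋃ i, ({p : R3 | p.1 < k i} ∩ (S ∩ (τ i).E ⁻¹' V)) := by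
      ext p
      simp only [mem_inter_iff, mem_preimage, mem_iUnion, mem_setOf_eq]
      constructor
      · rintro ⟨hp, hpV⟩
        refine ⟨N p.1, hN1 _, hp, ?_⟩
        rw [← hE _ p hp (hN1 _)]
        exact hpV
      · rintro ⟨i, hpi, hp, hpV⟩
        refine ⟨hp, ?_⟩
        rw [hE i p hp hpi]
        exact hpV
    rw [h1]
    apply isOpen_iUnion
    intro i
    refine (isOpen_lt continuous_fst continuous_const).inter ((hτ i).cont V ?_)
    exact isOpen_down (Iio_subset_Iio (hb i).le) hV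
  · intro U hU hUo
    have h1 : σ.E '' U = ⋃ i, (τ i).E '' (U ∩ {p : R3 | p.1 < k i}) := by
      ext x
      simp only [mem_image, mem_iUnion, mem_inter_iff, mem_setOf_eq]
      constructor
      · rintro ⟨p, hp, rfl⟩
        exact ⟨N p.1, p, ⟨hp, hN1 _⟩, (hE _ p (hU hp) (hN1 _)).symm⟩
      · rintro ⟨i, p, ⟨hp, hpi⟩, rfl⟩
        exact ⟨p, hp, hE i p (hU hp) hpi⟩
    rw [h1]
    refine @isOpen_iUnion X ℕ (top e (Iio δ)) _ fun i => ?_
    apply isOpen_up (γ := b i) (fun β hβ => h β hβ) (isLowerSet_Iio δ)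
    · rintro _ ⟨p, hp, rfl⟩
      exact (hτ i).maps p (hU hp.1)
    · exact (hτ i).opn _ (inter_subset_left.trans hU)
        (hUo.inter (isOpen_lt continuous_fst continuous_const))
  · intro p hp
    exact (hτ (N p.1)).lev p hp
  · choose j hj1 hj2 hj3 using hunm
    have hmono : StrictMono j := by
      apply strictMono_nat_of_lt_succ
      intro i
      exact lt_of_lt_of_le (hj2 i) (hj1 (i + 1))
    apply Set.infinite_of_injective_forall_mem hmono.injective
    intro i hi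
    exact hj3 i (((hJ (i + 1) (j i) (hj2 i)).1).1 hi)
  · exact hE i
  · exact hJ i
  · intro p hp hki hX
    have h1 : p.1 < k (max i (N p.1)) := lt_of_lt_of_le (hN1 _) (hkm _ _ (le_max_right _ _))
    rw [hE _ p hp h1] at hX ⊢
    exact (hEx i _ (le_max_left _ _)).back p hp hki hX

end Pool.Agent.Helper732.HP
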