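import Pool.Agent.Helper732.HP.O
import Pool.Agent.Helper732.HP.D
import Pool.Agent.Helper732.HP.M

set_option autoImplicit false

open Set Filter Topology

namespace Pool.Agent.Helper732.HP

/-! ## TARGETS -/

theorem TR_trans {l : Om → Ty} {e : Om → R3 → X} {β γ δ : Om} (hβγ : β ≤ γ) (hγδ : γ ≤ δ)
    (h : ∀ α < δ, Att (top e (Iio α)) α (e α)) {σ1 σ2 σ3 : Str}
    (h1 : TR l (top e (Iio γ)) β γ σ1 σ2) (h2 : TR l (top e (Iio δ)) γ δ σ2 σ3) :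
    TR l (top e (Iio δ)) β δ σ1 σ3 := by
  intro k
  obtain ⟨k1, ρ, hρ, hext, htl⟩ := h1 k
  obtain ⟨k3, ρ1, hρ1, hext1, htl1⟩ := h2 (max k k1 + 1)
  have hkk : k ≤ max k k1 + 1 := by omega
  have hk1 : k1 < max k k1 + 1 := by omega
  obtain ⟨ha, hb, hc⟩ := step_tr (t := top e (Iio γ)) (t' := top e (Iio δ)) hγδ
    (fun V hV => isOpen_down (Iio_subset_Iio hγδ) hV)
    (fun V hV ho => isOpen_up (s := Iio δ) (fun α hα => h α hα) (isLowerSet_Iio δ) hV ho)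
    hρ hρ1 htl hk1 hext1
  exact ⟨_, _, ha, Ext.trans hβγ hkk hext hb, TailEq.trans htl1 hc⟩

theorem cap_of_hit {l : Om → Ty} {e : Om → R3 → X} {s : Om → Str} {A : Set X} {m : Ty} {β : Om}
    (hs : Adm l (top e (Iio β)) β (s β)) (hA : (hit A m (s β)).Infinite) (k : ℕ) :
    Cap l e s A m β β k := by
  obtain ⟨j, hj, hkj⟩ := hA.exists_gt k
  exact ⟨j + 1, s β, hs, Ext.refl_of k, TailEq.refl_of _, j, hkj.le, Nat.lt_succ_self j,
    hj.1, hj.2.1, hj.2.2⟩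

theorem acc_cap {l : Om → Ty} {e : Om → R3 → X} {δ : Om}
    (h : ∀ β < δ, Att (top e (Iio β)) β (e β)) {s : Om → Str}
    (hs : ∀ β < δ, Adm l (top e (Iio β)) β (s β))
    (htr : ∀ β γ, β < γ → γ < δ → TR l (top e (Iio γ)) β γ (s β) (s γ))
    (hfin : ∀ α γ, α ⋖ γ → γ < δ → ∀ (a : NNReal) (k : ℕ),
      ∃ (k' : ℕ) (ρ : Str), Adm l (top e (Iio γ)) γ ρ ∧ Ext α k (s α) ρ ∧
        TailEq k' (s γ) ρ ∧
        ∃ j, k ≤ j ∧ j < k' ∧ j ∈ ρ.J ∧ R (ρ.n j) (l α) ∧ ρ.E (mk j (ρ.n j)) = Sum.inr (α, a))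
    {A : Set X} {m : Ty} (hacc : Acc l s A δ m) {β : Om} (hβ : β < δ) (k : ℕ) :
    ∃ γ, β ≤ γ ∧ γ < δ ∧ Cap l e s A m β γ k := by
  obtain ⟨a, haA, hcase⟩ := hacc.2 β hβ k
  rcases hcase with ⟨p, hp, hkp, hpm, rfl⟩ | ⟨haδ, haβ, hlam⟩
  · obtain ⟨k', ρ, h1, h2, h3, j, h4, h5, h6, h7, h8⟩ :=
      mod_cap (fun γ hγ => h γ (hγ.trans hβ)) (hs β hβ) hp hkp hpm
    exact ⟨β, le_rfl, hβ, k', ρ, h1, h2, h3, j, h4, h5, h6, h7, by rw [h8]; exact haA⟩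
  · rcases a with x | ⟨α, r⟩
    · exact absurd (inl_mem_XX x β) haβ
    · have hαδ : α < δ := haδ
      have hβα : β ≤ α := not_lt.mp haβ
      have hlα : R (l α) m := hlam
      obtain ⟨γ, hγ⟩ := om_covBy α
      obtain ⟨γ', hγ'δ, hαγ'⟩ := hacc.1.2 α hαδ
      have hγδ : γ < δ := lt_of_le_of_lt (not_lt.mp fun hlt => hγ.2 hαγ' hlt) hγ'δ
      rcases hβα.eq_or_lt with rfl | hlt
      · obtain ⟨k', ρ, h1, h2, h3, j, h4, h5, h6, h7, h8⟩ := hfin β γ hγ hγδ r k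
        exact ⟨γ, hγ.1.le, hγδ, k', ρ, h1, h2, h3, j, h4, h5, h6, h7.trans hlα,
          by rw [h8]; exact haA⟩
      · obtain ⟨k1, ρ, hρ, hext, htl⟩ := htr β α hlt hαδ k
        obtain ⟨k2, ρ1, hρ1, hext1, htl1, j, h4, h5, h6, h7, h8⟩ :=
          hfin α γ hγ hγδ r (max k k1 + 1)
        have hkk : k ≤ max k k1 + 1 := by omega
        have hk1 : k1 < max k k1 + 1 := by omega
        obtain ⟨ha, hb, hc⟩ := step_tr (t := top e (Iio α)) (t' := top e (Iio γ)) hγ.1.le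
          (fun V hV => isOpen_down (Iio_subset_Iio hγ.1.le) hV)
          (fun V hV ho => isOpen_up (s := Iio γ) (fun α' hα' => h α' (lt_trans hα' hγδ))
            (isLowerSet_Iio γ) hV ho)
          hρ hρ1 htl hk1 hext1
        have hJ := hc.eqJ j h4
        refine ⟨γ, hβα.trans hγ.1.le, hγδ, k2, _, ha, Ext.trans hβα hkk hext hb, ?_, j,
          hkk.trans h4, h5, hJ.1.mpr h6, ?_, ?_⟩
        · exact (TailEq.trans htl1 hc).mono (max_le le_rfl (h4.trans h5.le))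
        · rw [hJ.2]; exact h7.trans hlα
        · rw [hJ.2, hc.eqE (mk j (ρ1.n j)) ?_ ?_, h8]
          · exact haA
          · exact mk_mem _ _
          · have : ((max k k1 + 1 : ℕ) : ℝ) ≤ (j : ℝ) := by exact_mod_cast h4
            simp only [mk]
            linarith

end Pool.Agent.Helper732.HP
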