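import Pool.Agent.Helper732.HP.Defs

set_option autoImplicit false

open Set Filter Topology

namespace Pool.Agent.Helper732.HP

/-- the properties of the manifold which are used in the topological part -/
structure Props (l : Om → Ty) (G : Om → Set X) (t : TopologicalSpace X) (s : Om → Str) : Prop where
  t2 : @T2Space X t
  opX : ∀ α, IsOpen[t] (XX α)
  chart : ∀ x : X, ∃ φ : R3 → X, @IsOpenEmbedding R3 X _ t φ ∧ x ∈ range φ
  cover : ∀ α, ∃ φ : ℕ → R3 → X, (∀ i, @IsOpenEmbedding R3 X _ t (φ i)) ∧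
    ⋃ i, range (φ i) = XX α
  opO : ∀ α n k, IsOpen[t] (Oset (s α) n k)
  subO : ∀ α n k, Oset (s α) n k ⊆ XX α
  levO : ∀ α n k, ∀ x ∈ Oset (s α) n k, R (lam l x) n
  monO : ∀ α n n' k k', R n n' → k' ≤ k → Oset (s α) n k ⊆ Oset (s α) n' k'
  esc : ∀ α, ∀ x ∈ XX α, ∃ V : Set X, IsOpen[t] V ∧ x ∈ V ∧ ∃ k : ℕ, ∀ n, ∀ k' ≥ k,
    Disjoint V (Oset (s α) n k')
  nbd : ∀ δ y, y ∉ XX δ → ∀ k, ∃ N : Set X, IsOpen[t] N ∧ y ∈ N ∧
    N ∩ XX δ ⊆ Oset (s δ) (lam l y) k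
  shrink : ∀ α γ, α ⋖ γ → ∀ n k, @closure X t (Oset (s γ) n (k + 1)) ∩ XX α ⊆ Oset (s α) n k
  coh : ∀ β γ, β ≤ γ → ∀ n k, ∃ k', Oset (s γ) n k' ∩ XX β ⊆ Oset (s β) n k
  star : ∀ δ m, Acc l s (G δ) δ m → ∀ α, δ ≤ α → R m (l α) → ∀ a : NNReal,
    (Sum.inr (α, a) : X) ∈ @closure X t (G δ)

/-- the guessing property of the sequence `G` -/
def Guess (G : Om → Set X) : Prop :=
  ∀ (a : Om → X) (f : Om → Om), ∃ δ, (∃ β, β < δ) ∧ (∀ β < δ, f β < δ) ∧ G δ = a '' Iio δ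

/-- countable paracompactness -/
def CountablyParacompact (M : Type) [TopologicalSpace M] : Prop :=
  ∀ U : ℕ → Set M, (∀ n, IsOpen (U n)) → (⋃ n, U n) = univ →
    ∃ (ι : Type) (V : ι → Set M), (∀ i, IsOpen (V i)) ∧ (⋃ i, V i) = univ ∧
      LocallyFinite V ∧ ∀ i, ∃ n, V i ⊆ U n

/-! ### Diamond -/

/-- `C` is a closed unbounded subset of `ω₁` -/
def IsClub (C : Om → Prop) : Prop :=
  (∀ a : Om, ∃ b : Om, a < b ∧ C b) ∧
    ∀ a : Om, (∃ b, b < a) → (∀ b : Om, b < a → ∃ c : Om, (b < c ∧ c < a) ∧ C c) → C a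

/-- diamond: there are sets `A a` of countable ordinals such that each set `S` of countable
ordinals is guessed correctly at some point of each closed unbounded set -/
def Diamond : Prop :=
  ∃ A : Om → Om → Prop, ∀ S : Om → Prop, ∀ C : Om → Prop,
    IsClub C → ∃ a : Om, C a ∧ ∀ b : Om, b < a → (S b ↔ A a b)

end Pool.Agent.Helper732.HP
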