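import Pool.Agent.Helper732.HP.O
import Pool.Agent.Helper732.HP.PropsDef
import Pool.Agent.Helper732.HP.H1

set_option autoImplicit false

open Set Filter Topology

namespace Pool.Agent.Helper732.HP

theorem h2_XX_mono {β γ : Om} (h : β ≤ γ) : XX β ⊆ XX γ := by
  rintro (x | ⟨a, b⟩) hx
  · trivial
  · exact lt_of_lt_of_le (show a < β from hx) h

section h2abs

variable {M : Type} [TopologicalSpace M]

theorem h2_cn [T2Space M] {O : Set M} {φ : ℕ → R3 → M} (hφ : ∀ i, IsOpenEmbedding (φ i))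
    (hO : ⋃ i, range (φ i) = O) : CompletelyNormalSpace O := by
  have hopen : IsOpen O := by
    rw [← hO]
    exact isOpen_iUnion fun i => (hφ i).isOpen_range
  have hmem : ∀ i w, φ i w ∈ O := fun i w => by
    rw [← hO]
    exact mem_iUnion.2 ⟨i, w, rfl⟩
  let ψ : ℕ → R3 → O := fun i w => ⟨φ i w, hmem i w⟩
  have hψ : ∀ i, IsOpenEmbedding (ψ i) := fun i =>
    IsOpenEmbedding.of_comp (ψ i) hopen.isOpenEmbedding_subtypeVal (hφ i)
  have hcov : ⋃ i, range (ψ i) = univ := by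
    refine eq_univ_of_forall fun x => ?_
    have hx : (x : M) ∈ ⋃ i, range (φ i) := by rw [hO]; exact x.2
    obtain ⟨i, w, hw⟩ := mem_iUnion.1 hx
    exact mem_iUnion.2 ⟨i, w, Subtype.ext hw⟩
  haveI : ∀ i, SecondCountableTopology (range (ψ i)) := fun i =>
    ((hψ i).toIsEmbedding.toHomeomorph.symm).secondCountableTopology
  haveI : SecondCountableTopology O :=
    TopologicalSpace.secondCountableTopology_of_countable_cover (fun i => (hψ i).isOpen_range) hcov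
  haveI : WeaklyLocallyCompactSpace O := ⟨fun x => by
    have hx : x ∈ ⋃ i, range (ψ i) := by rw [hcov]; trivial
    obtain ⟨i, w, hw⟩ := mem_iUnion.1 hx
    refine ⟨ψ i '' Metric.closedBall w 1, (isCompact_closedBall w 1).image (hψ i).continuous, ?_⟩
    rw [← hw]
    exact (hψ i).isOpenMap.image_mem_nhds (Metric.closedBall_mem_nhds w one_pos)⟩
  infer_instance

theorem h2_sep {O : Set M} (hO : IsOpen O) (hcn : CompletelyNormalSpace O) {K L : Set M}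
    (hK : K ⊆ O) (hL : L ⊆ O) (h1 : Disjoint (closure K) L) (h2 : Disjoint K (closure L)) :
    ∃ V W : Set M, IsOpen V ∧ IsOpen W ∧ K ⊆ V ∧ L ⊆ W ∧ Disjoint V W ∧ V ⊆ O := by
  have key : Disjoint (𝓝ˢ (((↑) : O → M) ⁻¹' K)) (𝓝ˢ (((↑) : O → M) ⁻¹' L)) := by
    refine CompletelyNormalSpace.completely_normal ?_ ?_
    · rw [Set.disjoint_left] at h1 ⊢
      intro x hx hx'
      exact h1 (continuous_subtype_val.closure_preimage_subset K hx) hx'
    · rw [Set.disjoint_left] at h2 ⊢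
      intro x hx hx'
      exact h2 hx (continuous_subtype_val.closure_preimage_subset L hx')
  rw [← separatedNhds_iff_disjoint] at key
  obtain ⟨V, W, hV, hW, hKV, hLW, hd⟩ := key
  refine ⟨(↑) '' V, (↑) '' W, hO.isOpenMap_subtype_val V hV, hO.isOpenMap_subtype_val W hW,
    fun x hx => ⟨⟨x, hK hx⟩, hKV hx, rfl⟩, fun x hx => ⟨⟨x, hL hx⟩, hLW hx, rfl⟩,
    (Set.disjoint_image_iff Subtype.val_injective).2 hd, ?_⟩
  rintro _ ⟨x, -, rfl⟩
  exact x.2

end h2abs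


section soft2

variable {l : Om → Ty} {G : Om → Set X} {t : TopologicalSpace X} {s : Om → Str}
  (hP : Props l G t s) (hG : Guess G) (hl : ∀ n, ∀ β : Om, ∃ α, β ≤ α ∧ l α = n)

include hP hG

/-- separation of a bounded set from an arbitrary one -/
theorem sep_of_bounded {H K : Set X} (h1 : Disjoint (@closure X t H) K)
    (h2 : Disjoint H (@closure X t K)) {γ : Om} (hK : K ⊆ XX γ) :
    @SeparatedNhds X t H K := by
  letI := t
  haveI : T2Space X := hP.t2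
  classical
  have hex : ∀ n, ∃ δ, γ ≤ δ ∧ ((∃ k, Disjoint K (Oset (s δ) n k)) ∨
      (∀ α, δ ≤ α → R n (l α) → ∀ a : NNReal, (Sum.inr (α, a) : X) ∈ closure K)) := by
    intro n
    rcases star_bounded hP hG hK n with ⟨δ, h, k, hk⟩ | ⟨δ, hδ⟩
    · exact ⟨δ, h, Or.inl ⟨k, hk⟩⟩
    · exact ⟨max γ δ, le_max_left _ _, Or.inr fun α hα => hδ α ((le_max_right _ _).trans hα)⟩
  choose d hdγ hd using hex
  obtain ⟨δ, hδ'⟩ := om_bound (fun k : ℕ => d ⟨k % 3, Nat.mod_lt _ (by norm_num)⟩)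
  have hδ : ∀ n, d n < δ := by
    intro n
    have h := hδ' n.1
    have e : (⟨n.1 % 3, Nat.mod_lt _ (by norm_num)⟩ : Ty) = n := Fin.ext (Nat.mod_eq_of_lt n.2)
    rw [e] at h
    exact h
  obtain ⟨δ1, hcov⟩ := om_covBy δ
  have hlt : δ < δ1 := hcov.lt
  have hTa : ∀ n, (∃ k, Disjoint K (Oset (s (d n)) n k)) → ∃ k, Disjoint K (Oset (s δ) n k) := by
    rintro n ⟨k, hk⟩
    obtain ⟨k', hk'⟩ := hP.coh (d n) δ (hδ n).le n k
    refine ⟨k', ?_⟩
    rw [Set.disjoint_left] at hk ⊢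
    intro x hx hxO
    exact hk hx (hk' ⟨hxO, h2_XX_mono (hdγ n) (hK hx)⟩)
  obtain ⟨T, hTdef⟩ : ∃ T : Ty → Prop, ∀ n, T n ↔ ∃ k, Disjoint K (Oset (s δ) n k) :=
    ⟨fun n => ∃ k, Disjoint K (Oset (s δ) n k), fun n => Iff.rfl⟩
  have hk1 : ∀ n, ∃ k, T n → Disjoint K (Oset (s δ) n k) := by
    intro n
    by_cases h : T n
    · obtain ⟨k, hk⟩ := (hTdef n).1 h
      exact ⟨k, fun _ => hk⟩
    · exact ⟨0, fun h' => absurd h' h⟩
  choose k1 hk1 using hk1
  have hb : ∀ n, ¬ T n → ∀ α, δ ≤ α → R n (l α) → ∀ a : NNReal,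
      (Sum.inr (α, a) : X) ∈ closure K := by
    intro n hn α hα
    rcases hd n with h | h
    · exact absurd ((hTdef n).2 (hTa n h)) hn
    · exact h α ((hδ n).le.trans hα)
  have hKδ : K ⊆ XX δ := hK.trans (h2_XX_mono ((hdγ 0).trans (hδ 0).le))
  have hKδ1 : K ⊆ XX δ1 := hKδ.trans (h2_XX_mono hlt.le)
  obtain ⟨k2, hk2⟩ : ∃ k2 : Ty → ℕ, ∀ n, k2 n = k1 n + 1 := ⟨fun n => k1 n + 1, fun _ => rfl⟩
  obtain ⟨Γ, hΓ⟩ : ∃ Γ : Set X, ∀ x, x ∈ Γ ↔ ∃ n, T n ∧ x ∈ Oset (s δ1) n (k2 n) :=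
    ⟨{x | ∃ n, T n ∧ x ∈ Oset (s δ1) n (k2 n)}, fun x => Iff.rfl⟩
  have hKO : ∀ n, T n → ∀ x ∈ K, x ∉ closure (Oset (s δ1) n (k2 n)) := by
    intro n hn x hx hcl
    have h3 : x ∈ closure (Oset (s δ1) n (k1 n + 1)) := by
      rw [← hk2]
      exact hcl
    have h4 := hP.shrink δ δ1 hcov n (k1 n) ⟨h3, hKδ hx⟩
    exact Set.disjoint_left.1 (hk1 n hn) hx h4
  have hKΓ : Disjoint K (closure Γ) := by
    rw [Set.disjoint_left]
    intro x hx hcl
    have h6 : Γ ⊆ ⋃ n ∈ {n | T n}, Oset (s δ1) n (k2 n) := by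
      intro y hyΓ
      obtain ⟨n, hn, hy⟩ := (hΓ y).1 hyΓ
      exact mem_iUnion₂.2 ⟨n, hn, hy⟩
    have hfin : {n : Ty | T n}.Finite := Set.toFinite _
    have h7 := closure_mono h6 hcl
    rw [hfin.closure_biUnion] at h7
    obtain ⟨n, hn, hxn⟩ := mem_iUnion₂.1 h7
    exact hKO n hn x hx hxn
  have hΓo : IsOpen Γ := by
    have : Γ = ⋃ n, ⋃ (_ : T n), Oset (s δ1) n (k2 n) := by
      ext x
      rw [hΓ, mem_iUnion₂]
      simp only [exists_prop]
    rw [this]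
    exact isOpen_iUnion fun n => isOpen_iUnion fun _ => hP.opO _ _ _
  have hΓsub : Γ ⊆ XX δ1 := fun x hx => by
    obtain ⟨n, -, hxn⟩ := (hΓ x).1 hx
    exact hP.subO _ _ _ hxn
  have hΓK : Disjoint (closure K) Γ := (hKΓ.mono_right subset_closure).closure_left hΓo
  have hcn : CompletelyNormalSpace (XX δ1) := by
    obtain ⟨φ, h1, h2⟩ := hP.cover δ1
    exact h2_cn h1 h2
  have hL1 : Disjoint (closure K) ((H ∪ Γ) ∩ XX δ1) :=
    Disjoint.mono_right inter_subset_left (disjoint_union_right.2 ⟨h2.symm, hΓK⟩)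
  have hL2 : Disjoint K (closure ((H ∪ Γ) ∩ XX δ1)) := by
    refine Disjoint.mono_right (closure_mono inter_subset_left) ?_
    rw [closure_union]
    exact disjoint_union_right.2 ⟨h1.symm, hKΓ⟩
  obtain ⟨V, W, hV, hW, hKV, hLW, hVW, hVO⟩ :=
    h2_sep (hP.opX δ1) hcn hKδ1 inter_subset_right hL1 hL2
  refine ⟨(closure V)ᶜ, V, isClosed_closure.isOpen_compl, hV, ?_, hKV,
    disjoint_compl_left.mono_right subset_closure⟩
  intro y hy
  by_cases hyX : y ∈ XX δ1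
  · have hyW : y ∈ W := hLW ⟨Or.inl hy, hyX⟩
    intro hcl
    exact Set.disjoint_left.1 (hVW.closure_left hW) hcl hyW
  · rcases y with y | ⟨α, a⟩
    · exact absurd trivial hyX
    have hα : δ1 ≤ α := not_lt.1 hyX
    have hT : T (l α) := by
      by_contra hT
      exact Set.disjoint_left.1 h2 hy (hb _ hT α (hlt.le.trans hα) (R.refl _) a)
    obtain ⟨N, hN, hyN, hNs⟩ := hP.nbd δ1 _ hyX (k2 (l α))
    intro hcl
    have hdj : Disjoint V N := by
      rw [Set.disjoint_left]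
      intro z hzV hzN
      have hzO := hNs ⟨hzN, hVO hzV⟩
      have hzΓ : z ∈ Γ := (hΓ z).2 ⟨l α, hT, hzO⟩
      exact Set.disjoint_left.1 hVW hzV (hLW ⟨Or.inr hzΓ, hVO hzV⟩)
    exact Set.disjoint_left.1 (hdj.closure_left hN) hcl hyN

end soft2

section soft2

variable {l : Om → Ty} {G : Om → Set X} {t : TopologicalSpace X} {s : Om → Str}
  (hP : Props l G t s) (hG : Guess G) (hl : ∀ n, ∀ β : Om, ∃ α, β ≤ α ∧ l α = n)

include hP hG

omit hG in
theorem not_normal_open (h0 : ∃ α0 : Om, ∀ β, ¬ β < α0) (n : Ty) :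
    IsOpen[t] {x : X | R (lam l x) n} := by
  letI := t
  rw [isOpen_iff_mem_nhds]
  rintro y hy
  rcases y with w | ⟨α, a⟩
  · obtain ⟨α0, hα0⟩ := h0
    have h1 : IsOpen (XX α0) := hP.opX α0
    refine Filter.mem_of_superset (h1.mem_nhds (show (Sum.inl w : X) ∈ XX α0 from trivial)) ?_
    rintro x hx
    rcases x with x | ⟨β, b⟩
    · exact R.zero n
    · exact absurd hx (hα0 β)
  · obtain ⟨α1, hα1⟩ := om_covBy α
    have hyα : (Sum.inr (α, a) : X) ∉ XX α := fun h => lt_irrefl α h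
    have hyα1 : (Sum.inr (α, a) : X) ∈ XX α1 := hα1.lt
    obtain ⟨N, hN, hyN, hsub⟩ := hP.nbd α _ hyα 0
    have h1 : IsOpen (N ∩ XX α1) := IsOpen.inter hN (hP.opX α1)
    refine Filter.mem_of_superset (h1.mem_nhds ⟨hyN, hyα1⟩) ?_
    rintro x ⟨hxN, hx1⟩
    have hkey : R (lam l x) (lam l (Sum.inr (α, a) : X)) := by
      by_cases hx : x ∈ XX α
      · exact hP.levO α _ 0 x (hsub ⟨hxN, hx⟩)
      · rcases x with x | ⟨β, b⟩
        · exact absurd trivial hx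
        · have hβ1 : β < α1 := hx1
          have hβ : ¬ β < α := hx
          have : β = α := le_antisymm ((covBy_Iio hα1).mp hβ1) (not_lt.mp hβ)
          subst this
          exact R.refl _
    exact R.trans hkey hy

include hl in
theorem not_normal_bdd (U : Set X) (hU : IsOpen[t] U) (k : Ty)
    (hk : ∀ x, lam l x = k → x ∈ U) : ∃ δ, ∀ x, lam l x = 0 → x ∉ U → x ∈ XX δ := by
  by_contra hcon
  push Not at hcon
  letI := t
  obtain ⟨δ, hδ⟩ := star_unbounded hP hG (A := {x | lam l x = 0 ∧ x ∉ U}) (m := 0)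
    (fun x hx => Or.inl hx.1)
    (fun δ => by
      obtain ⟨x, h1, h2, h3⟩ := hcon δ
      exact ⟨x, ⟨h1, h2⟩, h3⟩)
  obtain ⟨α, hα, hlα⟩ := hl k δ
  have h1 := hδ α hα (R.zero _) 0
  have h2 : (Sum.inr (α, 0) : X) ∈ U := hk _ hlα
  obtain ⟨z, hz1, hz2⟩ := mem_closure_iff.mp h1 U hU h2
  exact hz2.2 hz1

include hl in
theorem not_normal : ¬ @NormalSpace X t := by
  intro hn
  letI := t
  obtain ⟨δ0, -⟩ := hG (fun _ => Sum.inl 0) id
  have h0 : ∃ α0 : Om, ∀ β, ¬ β < α0 := by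
    obtain ⟨m, -, hm⟩ := (wellFounded_lt (α := Om)).has_min univ ⟨δ0, trivial⟩
    exact ⟨m, fun β => hm β trivial⟩
  have hne : (1 : Ty) ≠ 0 ∧ (2 : Ty) ≠ 0 ∧ (1 : Ty) ≠ 2 ∧ (2 : Ty) ≠ 1 := by decide
  have hc1 : IsClosed {x : X | lam l x = 1} := by
    rw [← isOpen_compl_iff]
    convert not_normal_open hP h0 2 using 1
    ext x
    simp only [mem_compl_iff, mem_setOf_eq, R]
    generalize lam l x = z
    revert z
    decide
  have hc2 : IsClosed {x : X | lam l x = 2} := by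
    rw [← isOpen_compl_iff]
    convert not_normal_open hP h0 1 using 1
    ext x
    simp only [mem_compl_iff, mem_setOf_eq, R]
    generalize lam l x = z
    revert z
    decide
  have hd : Disjoint {x : X | lam l x = 1} {x : X | lam l x = 2} := by
    rw [Set.disjoint_left]
    intro x hx hx2
    exact hne.2.2.1 (hx.symm.trans hx2)
  obtain ⟨U, V, hU, hV, hFU, hFV, hUV⟩ := hn.normal _ _ hc1 hc2 hd
  obtain ⟨δ1, h1⟩ := not_normal_bdd hP hG hl U hU 1 fun x hx => hFU hx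
  obtain ⟨δ2, h2⟩ := not_normal_bdd hP hG hl V hV 2 fun x hx => hFV hx
  obtain ⟨α, hα, hlα⟩ := hl 0 (max δ1 δ2)
  have hU' : (Sum.inr (α, 0) : X) ∈ U := by
    by_contra hcon
    have h3 : α < δ1 := h1 (Sum.inr (α, 0)) hlα hcon
    exact absurd ((le_max_left δ1 δ2).trans hα) (not_le.mpr h3)
  have hV' : (Sum.inr (α, 0) : X) ∈ V := by
    by_contra hcon
    have h3 : α < δ2 := h2 (Sum.inr (α, 0)) hlα hcon
    exact absurd ((le_max_right δ1 δ2).trans hα) (not_le.mpr h3)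
  exact Set.disjoint_left.mp hUV hU' hV'

end soft2

theorem h3_XX_mono {β γ : Om} (h : β ≤ γ) : XX β ⊆ XX γ := by
  rintro (x | ⟨a, b⟩) hx
  · trivial
  · exact lt_of_lt_of_le (show a < β from hx) h

theorem h3_para {M : Type} [TopologicalSpace M] [T2Space M] {O : Set M} {φ : ℕ → R3 → M}
    (hφ : ∀ i, IsOpenEmbedding (φ i)) (hO : ⋃ i, range (φ i) = O) {O' : Set M} (hO' : IsOpen O')
    (hsub : O' ⊆ O) : ParacompactSpace O' := by
  have hopen : IsOpen O := by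
    rw [← hO]
    exact isOpen_iUnion fun i => (hφ i).isOpen_range
  have hmem : ∀ i w, φ i w ∈ O := fun i w => by
    rw [← hO]
    exact mem_iUnion.2 ⟨i, w, rfl⟩
  let ψ : ℕ → R3 → O := fun i w => ⟨φ i w, hmem i w⟩
  have hψ : ∀ i, IsOpenEmbedding (ψ i) := fun i =>
    IsOpenEmbedding.of_comp (ψ i) hopen.isOpenEmbedding_subtypeVal (hφ i)
  have hcov : ⋃ i, range (ψ i) = univ := by
    refine eq_univ_of_forall fun x => ?_
    have hx : (x : M) ∈ ⋃ i, range (φ i) := by rw [hO]; exact x.2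
    obtain ⟨i, w, hw⟩ := mem_iUnion.1 hx
    exact mem_iUnion.2 ⟨i, w, Subtype.ext hw⟩
  haveI : ∀ i, SecondCountableTopology (range (ψ i)) := fun i =>
    ((hψ i).toIsEmbedding.toHomeomorph.symm).secondCountableTopology
  haveI : SecondCountableTopology O :=
    TopologicalSpace.secondCountableTopology_of_countable_cover (fun i => (hψ i).isOpen_range) hcov
  haveI : WeaklyLocallyCompactSpace O := ⟨fun x => by
    have hx : x ∈ ⋃ i, range (ψ i) := by rw [hcov]; trivial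
    obtain ⟨i, w, hw⟩ := mem_iUnion.1 hx
    refine ⟨ψ i '' Metric.closedBall w 1, (isCompact_closedBall w 1).image (hψ i).continuous, ?_⟩
    rw [← hw]
    exact (hψ i).isOpenMap.image_mem_nhds (Metric.closedBall_mem_nhds w one_pos)⟩
  haveI : LocallyCompactSpace O := inferInstance
  have hinc : IsOpenEmbedding (Set.inclusion hsub) :=
    IsOpenEmbedding.of_comp (Set.inclusion hsub) hopen.isOpenEmbedding_subtypeVal
      hO'.isOpenEmbedding_subtypeVal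
  haveI : SecondCountableTopology O' := hinc.toIsEmbedding.secondCountableTopology
  haveI : LocallyCompactSpace O' := hinc.locallyCompactSpace
  infer_instance

/-- precise locally finite refinement over an open paracompact subspace -/
theorem h3_refine {M : Type} [TopologicalSpace M] {O : Set M} (hO : IsOpen O)
    (hpc : ParacompactSpace O) (G : ℕ → Set M) (hG : ∀ n, IsOpen (G n)) (hc : O ⊆ ⋃ n, G n) :
    ∃ P : ℕ → Set M, (∀ n, IsOpen (P n)) ∧ (∀ n, P n ⊆ G n) ∧ O ⊆ ⋃ n, P n ∧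
      ∀ x ∈ O, ∃ N : Set M, IsOpen N ∧ x ∈ N ∧ {n | (P n ∩ N).Nonempty}.Finite := by
  obtain ⟨v, hvo, hvc, hvf, hvs⟩ := precise_refinement (fun n => ((↑) : O → M) ⁻¹' G n)
    (fun n => (hG n).preimage continuous_subtype_val) (by
      refine eq_univ_of_forall fun x => ?_
      obtain ⟨n, hn⟩ := mem_iUnion.1 (hc x.2)
      exact mem_iUnion.2 ⟨n, hn⟩)
  refine ⟨fun n => (↑) '' v n, fun n => hO.isOpenMap_subtype_val _ (hvo n), ?_, ?_, ?_⟩
  · rintro n _ ⟨x, hx, rfl⟩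
    exact hvs n hx
  · intro x hx
    have : (⟨x, hx⟩ : O) ∈ ⋃ n, v n := by rw [hvc]; trivial
    obtain ⟨n, hn⟩ := mem_iUnion.1 this
    exact mem_iUnion.2 ⟨n, ⟨x, hx⟩, hn, rfl⟩
  · intro x hx
    obtain ⟨T, hT, hfin⟩ := hvf ⟨x, hx⟩
    obtain ⟨T', hT'T, hT'o, hxT'⟩ := mem_nhds_iff.1 hT
    refine ⟨(↑) '' T', hO.isOpenMap_subtype_val _ hT'o, ⟨⟨x, hx⟩, hxT', rfl⟩, ?_⟩
    refine hfin.subset ?_
    rintro n ⟨y, ⟨z, hz, hzy⟩, ⟨z', hz', hzy'⟩⟩
    have : z = z' := Subtype.ext (hzy.trans hzy'.symm)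
    subst this
    exact ⟨z, hz, hT'T hz'⟩

section soft3

variable {l : Om → Ty} {G : Om → Set X} {t : TopologicalSpace X} {s : Om → Str}
  (hP : Props l G t s) (hG : Guess G) (hl : ∀ n, ∀ β : Om, ∃ α, β ≤ α ∧ l α = n)

include hP hG

theorem h3_level (U : ℕ → Set X) (hU : ∀ n, IsOpen[t] (U n)) (n : Ty) :
    ∃ (N : ℕ) (δ : Om), ∀ x ∈ ⋃ k, U k, lam l x = n → x ∉ XX δ → ∃ k ≤ N, x ∈ U k := by
  letI := t
  by_contra hcon
  push Not at hcon
  have hst : ∀ N : ℕ, ∃ δ, ∀ α, δ ≤ α → R n (l α) → ∀ a : NNReal,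
      (Sum.inr (α, a) : X) ∈ closure {x | x ∈ ⋃ k, U k ∧ lam l x = n ∧ ∀ k ≤ N, x ∉ U k} := by
    intro N
    apply star_unbounded hP hG
    · rintro x ⟨-, hx, -⟩
      rw [hx]
      exact R.refl n
    · intro δ
      obtain ⟨x, h1, h2, h3, h4⟩ := hcon N δ
      exact ⟨x, ⟨h1, h2, h4⟩, h3⟩
  choose d hd using hst
  obtain ⟨δ, hδ⟩ := om_bound d
  obtain ⟨x, h1, h2, h3, -⟩ := hcon 0 δ
  rcases x with x | ⟨α, a⟩
  · exact h3 trivial
  · have hα : δ ≤ α := not_lt.1 h3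
    obtain ⟨k, hk⟩ := mem_iUnion.1 h1
    have hR : R n (l α) := by
      have : l α = n := h2
      rw [this]
      exact R.refl n
    have h4 := hd k α ((hδ k).le.trans hα) hR a
    rw [mem_closure_iff] at h4
    obtain ⟨y, hy1, hy2⟩ := h4 (U k) (hU k) hk
    exact hy2.2.2 k le_rfl hy1

theorem h3_core (U : ℕ → Set X) (hU : ∀ n, IsOpen[t] (U n)) :
    ∃ (ι : Type) (V : ι → Set X), (∀ i, IsOpen[t] (V i)) ∧ (⋃ k, U k) ⊆ (⋃ i, V i) ∧
      (∀ x ∈ ⋃ k, U k, ∃ N : Set X, IsOpen[t] N ∧ x ∈ N ∧ {i | (V i ∩ N).Nonempty}.Finite) ∧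
      ∀ i, ∃ n, V i ⊆ U n := by
  letI := t
  haveI : T2Space X := hP.t2
  choose Nn dn hNd using h3_level hP hG U hU
  obtain ⟨N, hN⟩ : ∃ N : ℕ, ∀ n, Nn n ≤ N := by
    refine ⟨Finset.univ.sup Nn, fun n => Finset.le_sup (Finset.mem_univ n)⟩
  obtain ⟨δ0, hδ0⟩ : ∃ δ : Om, ∀ n, dn n ≤ δ := by
    refine ⟨max (dn 0) (max (dn 1) (dn 2)), fun n => ?_⟩
    fin_cases n
    · exact le_max_left _ _
    · exact (le_max_left _ _).trans (le_max_right _ _)
    · exact (le_max_right _ _).trans (le_max_right _ _)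
  set W : Set X := ⋃ k, U k with hW
  have hWo : IsOpen W := isOpen_iUnion hU
  set H : Set X := ⋃ k ∈ {k | k ≤ N}, U k with hH
  have hHo : IsOpen H := isOpen_biUnion fun k _ => hU k
  have hFH : W \ XX δ0 ⊆ H := by
    rintro x ⟨hx, hxδ⟩
    obtain ⟨k, hk, hxk⟩ := hNd (lam l x) x hx rfl (fun h => hxδ (h3_XX_mono (hδ0 _) h))
    exact mem_biUnion (x := k) (hk.trans (hN _)) hxk
  have hKX : W \ H ⊆ XX δ0 := by
    rintro x ⟨hx, hxH⟩
    by_contra h
    exact hxH (hFH ⟨hx, h⟩)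
  have h1 : Disjoint (closure (W \ XX δ0)) (W \ H) := by
    have : Disjoint (W \ XX δ0) (XX δ0) := disjoint_sdiff_left
    exact (this.closure_left (hP.opX δ0)).mono_right hKX
  have h2 : Disjoint (W \ XX δ0) (closure (W \ H)) := by
    have : Disjoint (W \ H) H := disjoint_sdiff_left
    exact (this.closure_left hHo).symm.mono_left hFH
  obtain ⟨U1, U2, hU1, hU2, hFU1, hKU2, hdis⟩ := sep_of_bounded hP hG h1 h2 hKX
  have hOo : IsOpen (W ∩ XX δ0) := hWo.inter (hP.opX δ0)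
  have hpc : ParacompactSpace ↥(W ∩ XX δ0) := by
    obtain ⟨φ, e1, e2⟩ := hP.cover δ0
    exact h3_para e1 e2 hOo inter_subset_right
  obtain ⟨P, hPo, hPU, hPc, hPf⟩ := h3_refine hOo hpc U hU inter_subset_left
  refine ⟨Fin (N + 1) ⊕ ℕ, Sum.elim (fun i => U i) (fun n => P n ∩ U2), ?_, ?_, ?_, ?_⟩
  · rintro (i | n)
    · exact hU i
    · exact (hPo n).inter hU2
  · intro x hx
    by_cases hxH : x ∈ H
    · obtain ⟨k, hk, hxk⟩ := mem_iUnion₂.1 hxH
      exact mem_iUnion.2 ⟨Sum.inl ⟨k, Nat.lt_succ_of_le hk⟩, hxk⟩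
    · have hxK : x ∈ W \ H := ⟨hx, hxH⟩
      obtain ⟨n, hn⟩ := mem_iUnion.1 (hPc ⟨hx, hKX hxK⟩)
      exact mem_iUnion.2 ⟨Sum.inr n, hn, hKU2 hxK⟩
  · intro x hx
    by_cases hxδ : x ∈ XX δ0
    · obtain ⟨M, hM, hxM, hfin⟩ := hPf x ⟨hx, hxδ⟩
      refine ⟨M, hM, hxM, ?_⟩
      refine ((Set.finite_range (Sum.inl : Fin (N + 1) → Fin (N + 1) ⊕ ℕ)).union
        (hfin.image (Sum.inr : ℕ → Fin (N + 1) ⊕ ℕ))).subset ?_
      rintro (i | n) hi
      · exact Or.inl ⟨i, rfl⟩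
      · refine Or.inr ⟨n, ?_, rfl⟩
        obtain ⟨y, ⟨hy1, hy2⟩, hy3⟩ := hi
        exact ⟨y, hy1, hy3⟩
    · refine ⟨U1, hU1, hFU1 ⟨hx, hxδ⟩, ?_⟩
      refine (Set.finite_range (Sum.inl : Fin (N + 1) → Fin (N + 1) ⊕ ℕ)).subset ?_
      rintro (i | n) hi
      · exact ⟨i, rfl⟩
      · exfalso
        obtain ⟨y, ⟨hy1, hy2⟩, hy3⟩ := hi
        exact Set.disjoint_left.1 hdis hy3 hy2
  · rintro (i | n)
    · exact ⟨i, subset_rfl⟩
    · exact ⟨n, inter_subset_left.trans (hPU n)⟩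

theorem all_cp : ∀ Y : Set X,
    @CountablyParacompact Y (@instTopologicalSpaceSubtype X (· ∈ Y) t) := by
  letI := t
  intro Y U hU hUc
  have hex : ∀ n, ∃ G' : Set X, IsOpen G' ∧ ((↑) : Y → X) ⁻¹' G' = U n := fun n =>
    isOpen_induced_iff.1 (hU n)
  choose G' hG'o hG' using hex
  obtain ⟨ι, V, hVo, hVc, hVf, hVs⟩ := h3_core hP hG G' hG'o
  have hYW : ∀ y : Y, (y : X) ∈ ⋃ k, G' k := by
    intro y
    have : y ∈ ⋃ n, U n := by rw [hUc]; trivial
    obtain ⟨n, hn⟩ := mem_iUnion.1 this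
    rw [← hG' n] at hn
    exact mem_iUnion.2 ⟨n, hn⟩
  refine ⟨ι, fun i => ((↑) : Y → X) ⁻¹' V i, fun i => (hVo i).preimage continuous_subtype_val,
    ?_, ?_, ?_⟩
  · refine eq_univ_of_forall fun y => ?_
    obtain ⟨i, hi⟩ := mem_iUnion.1 (hVc (hYW y))
    exact mem_iUnion.2 ⟨i, hi⟩
  · intro y
    obtain ⟨M, hM, hyM, hfin⟩ := hVf y (hYW y)
    refine ⟨((↑) : Y → X) ⁻¹' M, (hM.preimage continuous_subtype_val).mem_nhds hyM, ?_⟩
    refine hfin.subset ?_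
    rintro i ⟨z, hz1, hz2⟩
    exact ⟨z, hz1, hz2⟩
  · intro i
    obtain ⟨n, hn⟩ := hVs i
    refine ⟨n, ?_⟩
    rw [← hG' n]
    exact preimage_mono hn

end soft3

end Pool.Agent.Helper732.HP
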