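import Pool.Agent.Helper732.HP.O
import Pool.Agent.Helper732.HP.A
import Pool.Agent.Helper732.HP.B5
import Pool.Agent.Helper732.HP.G0
import Pool.Agent.Helper732.HP.E

set_option autoImplicit false

open Set Filter Topology

namespace Pool.Agent.Helper732.HP

/-! ## TARGETS -/

section R

variable {l : Om → Ty} {G : Om → Set X} {D : Om → Dat} (hD : ∀ α, Good l G D α)

include hD

theorem R_t2 : @T2Space X (top (eD l D) univ) :=
  t2 (fun β _ => good_att_all hD β) isLowerSet_univ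

theorem R_opX (α : Om) : IsOpen[top (eD l D) univ] (XX α) :=
  isOpen_XX (fun β _ => good_att_all hD β) isLowerSet_univ

theorem R_chart (x : X) : ∃ φ : R3 → X, @IsOpenEmbedding R3 X _ (top (eD l D) univ) φ ∧
    x ∈ range φ := by
  rcases x with x | ⟨β, a⟩
  · exact ⟨Sum.inl, openEmb_inl (fun β _ => good_att_all hD β) isLowerSet_univ, ⟨x, rfl⟩⟩
  · refine ⟨eD l D β, openEmb_e (fun β _ => good_att_all hD β) isLowerSet_univ (mem_univ β), ?_⟩
    refine ⟨((a : ℝ), 0), ?_⟩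
    rw [e_ray (good_att_all hD β) (show ((a : ℝ), (0 : ℝ × ℝ)) ∈ Ray from ⟨a.2, rfl⟩)]
    simp

theorem R_cover (α : Om) : ∃ φ : ℕ → R3 → X,
    (∀ i, @IsOpenEmbedding R3 X _ (top (eD l D) univ) (φ i)) ∧ ⋃ i, range (φ i) = XX α := by
  have hinl := openEmb_inl (e := eD l D) (fun β _ => good_att_all hD β) isLowerSet_univ
  have hsub : ∀ β < α, range (eD l D β) ⊆ XX α := by
    rintro β hβ _ ⟨w, rfl⟩
    exact e_mem (good_att_all hD β) hβ w
  have hmem : ∀ x ∈ XX α, (x ∈ range (Sum.inl : R3 → X)) ∨ ∃ β < α, x ∈ range (eD l D β) := by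
    rintro (x | ⟨β, a⟩) hx
    · exact Or.inl ⟨x, rfl⟩
    · refine Or.inr ⟨β, hx, ((a : ℝ), 0), ?_⟩
      rw [e_ray (good_att_all hD β) (show ((a : ℝ), (0 : ℝ × ℝ)) ∈ Ray from ⟨a.2, rfl⟩)]
      simp
  rcases (Iio α).eq_empty_or_nonempty with he | hne
  · refine ⟨fun _ => Sum.inl, fun _ => hinl, ?_⟩
    apply Subset.antisymm
    · refine iUnion_subset fun i => ?_
      rintro _ ⟨w, rfl⟩
      exact inl_mem_XX w α
    · intro x hx
      rcases hmem x hx with h | ⟨β, hβ, _⟩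
      · exact mem_iUnion.2 ⟨0, h⟩
      · exfalso
        have : β ∈ Iio α := hβ
        rw [he] at this
        exact this
  · obtain ⟨f, hf⟩ := (om_countable α).exists_eq_range hne
    refine ⟨fun i => Nat.casesOn i Sum.inl (fun j => eD l D (f j)), ?_, ?_⟩
    · intro i
      cases i with
      | zero => exact hinl
      | succ j =>
        exact openEmb_e (fun β _ => good_att_all hD β) isLowerSet_univ (mem_univ (f j))
    · apply Subset.antisymm
      · refine iUnion_subset fun i => ?_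
        cases i with
        | zero =>
          rintro _ ⟨w, rfl⟩
          exact inl_mem_XX w α
        | succ j =>
          apply hsub (f j)
          have : f j ∈ Iio α := by rw [hf]; exact ⟨j, rfl⟩
          exact this
      · intro x hx
        rcases hmem x hx with h | ⟨β, hβ, h⟩
        · exact mem_iUnion.2 ⟨0, h⟩
        · have : β ∈ Iio α := hβ
          rw [hf] at this
          obtain ⟨j, rfl⟩ := this
          exact mem_iUnion.2 ⟨j + 1, h⟩

theorem R_opO (α : Om) (n : Ty) (k : ℕ) : IsOpen[top (eD l D) univ] (Oset (D α).σ n k) := by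
  apply isOpen_up (fun β _ => good_att_all hD β) isLowerSet_univ
    (show Oset (D α).σ n k ⊆ XX α from by
      rintro _ ⟨p, hp, rfl⟩
      exact (hD α).adm.1.maps p hp.1)
  apply (hD α).adm.1.opn
  · intro p hp
    exact hp.1
  · have h1 : Continuous (fun p : R3 => p.1) := continuous_fst
    have h2 : Continuous (fun p : R3 => p.2.1) := continuous_fst.comp continuous_snd
    have h3 : Continuous (fun p : R3 => p.2.2) := continuous_snd.comp continuous_snd
    exact isOpen_S.inter ((isOpen_lt continuous_const h1).inter ((isOpen_ty n).preimage h2))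

theorem R_subO (α : Om) (n : Ty) (k : ℕ) : Oset (D α).σ n k ⊆ XX α := by
  rintro _ ⟨p, hp, rfl⟩
  exact (hD α).adm.1.maps p hp.1

theorem R_levO (α : Om) (n : Ty) (k : ℕ) : ∀ x ∈ Oset (D α).σ n k, R (lam l x) n := by
  rintro _ ⟨p, ⟨hpS, -, hp⟩, rfl⟩
  exact ((hD α).adm.1.lev p hpS).trans hp

theorem R_monO (α : Om) (n n' : Ty) (k k' : ℕ) (hn : R n n') (hk : k' ≤ k) :
    Oset (D α).σ n k ⊆ Oset (D α).σ n' k' := by
  rintro _ ⟨p, ⟨hpS, h1, h2⟩, rfl⟩
  have hk' : (k' : ℝ) ≤ k := by exact_mod_cast hk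
  exact ⟨p, ⟨hpS, by linarith, h2.trans hn⟩, rfl⟩

theorem R_esc (α : Om) (x : X) (hx : x ∈ XX α) : ∃ V : Set X, IsOpen[top (eD l D) univ] V ∧
    x ∈ V ∧ ∃ k : ℕ, ∀ n, ∀ k' ≥ k, Disjoint V (Oset (D α).σ n k') := by
  obtain ⟨V, hVo, hxV, k, hk⟩ := (hD α).adm.2 x hx
  refine ⟨V ∩ XX α, ?_, ⟨hxV, hx⟩, k, ?_⟩
  · apply isOpen_up (γ := α) (fun β _ => good_att_all hD β) isLowerSet_univ inter_subset_right
    have h1 : IsOpen[top (eD l D) (Iio α)] (XX α) :=
      isOpen_down (subset_univ _) (R_opX hD α)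
    have h2 : IsOpen[top (eD l D) (Iio α)] V := hVo
    exact @IsOpen.inter X (top (eD l D) (Iio α)) V (XX α) h2 h1
  · intro n k' hk'
    rw [Set.disjoint_left]
    rintro _ ⟨hyV, _⟩ ⟨p, ⟨hpS, hp1, _⟩, rfl⟩
    have hkk : (k : ℝ) ≤ k' := by exact_mod_cast hk'
    exact hk p hpS (by linarith) hyV

theorem R_coh (β γ : Om) (hβγ : β ≤ γ) (n : Ty) (k : ℕ) :
    ∃ k', Oset (D γ).σ n k' ∩ XX β ⊆ Oset (D β).σ n k := by
  rcases hβγ.eq_or_lt with rfl | hlt
  · exact ⟨k, inter_subset_left⟩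
  · obtain ⟨K, ρ, -, hext, htail⟩ := (hD γ).tr β hlt (k + 1)
    refine ⟨max K (k + 1), ?_⟩
    rintro _ ⟨⟨p, ⟨hpS, hp1, hp2⟩, rfl⟩, hpX⟩
    have hK : (K : ℝ) ≤ ((max K (k + 1) : ℕ) : ℝ) := by exact_mod_cast le_max_left _ _
    have hk1 : ((k + 1 : ℕ) : ℝ) ≤ ((max K (k + 1) : ℕ) : ℝ) := by exact_mod_cast le_max_right _ _
    have he := htail.eqE p hpS (by linarith)
    rw [← he] at hpX
    obtain ⟨p0, hp0S, hp01, hp0e, hp0f⟩ := hext.back p hpS (by linarith) hpX
    refine ⟨p0, ⟨hp0S, ?_, ?_⟩, ?_⟩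
    · push_cast at hp01
      linarith
    · exact hp0f.trans hp2
    · rw [← hp0e, he]

end R

end Pool.Agent.Helper732.HP
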