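import Pool.Agent.Helper732.HP.O
import Pool.Agent.Helper732.HP.A
import Pool.Agent.Helper732.HP.D
import Pool.Agent.Helper732.HP.B5
import Pool.Agent.Helper732.HP.E3
import Pool.Agent.Helper732.HP.G0

set_option autoImplicit false

open Set Filter Topology

namespace Pool.Agent.Helper732.HP

/-! ## TARGETS -/

section R

variable {l : Om → Ty} {G : Om → Set X} {D : Om → Dat} (hD : ∀ α, Good l G D α)

include hD

theorem R_nbd (δ : Om) (y : X) (hy : y ∉ XX δ) (k : ℕ) : ∃ N : Set X,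
    IsOpen[top (eD l D) univ] N ∧ y ∈ N ∧ N ∩ XX δ ⊆ Oset (D δ).σ (lam l y) k := by
  rcases y with x | ⟨α, a⟩
  · exact absurd (inl_mem_XX x δ) hy
  have hδα : δ ≤ α := by
    rw [inr_mem_XX] at hy
    exact not_lt.mp hy
  obtain ⟨K, ρ, hext, htl⟩ : ∃ (K : ℕ) (ρ : Str), Ext δ (k + 1) (D δ).σ ρ ∧ TailEq K (D α).σ ρ := by
    rcases hδα.lt_or_eq with h | h
    · obtain ⟨K, ρ, _, h2, h3⟩ := (hD α).tr δ h (k + 1)
      exact ⟨K, ρ, h2, h3⟩
    · subst h
      exact ⟨0, (D δ).σ, Ext.refl_of _, TailEq.refl_of _⟩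
  have hatt := fun β (_ : β ∈ (univ : Set Om)) => good_att_all hD β
  have hemb := openEmb_e (s := (univ : Set Om)) hatt isLowerSet_univ (mem_univ α)
  have hW : IsOpen {w : R3 | uu w < 1 / ((K : ℝ) + k + 2)} :=
    isOpen_lt uu_continuous continuous_const
  have hKk : (0 : ℝ) < (K : ℝ) + k + 2 := by positivity
  refine ⟨eD l D α '' {w : R3 | uu w < 1 / ((K : ℝ) + k + 2)}, ?_, ?_, ?_⟩
  · letI := top (eD l D) (univ : Set Om)
    exact hemb.isOpenMap _ hW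
  · have hray : (((a : ℝ), 0) : R3) ∈ Ray := ⟨a.2, rfl⟩
    refine ⟨(((a : ℝ), 0) : R3), ?_, ?_⟩
    · show uu _ < _
      rw [uu_ray hray]
      positivity
    · rw [e_ray (good_att_all hD α) hray]
      simp
  · rintro x ⟨⟨w, hw, rfl⟩, hxδ⟩
    have hwr : w ∉ Ray := by
      intro hr
      rw [e_ray (good_att_all hD α) hr, inr_mem_XX] at hxδ
      exact absurd hxδ (not_lt.mpr hδα)
    obtain ⟨p1, hp1, hp11, hp1E⟩ := att_off' (α := α) (q := l α) (w := (D α).w) (hD α).bd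
      (E := (D α).σ.E) hwr
    have hE : eD l D α w = (D α).σ.E p1 := hp1E
    have hp1S : p1 ∈ S := Reg_subset (hD α).bd hp1
    have hbig : (K : ℝ) + k + 2 < p1.1 := by
      rw [hp11, lt_div_iff₀ (uu_pos hwr)]
      have hw' : uu w < 1 / ((K : ℝ) + k + 2) := hw
      rw [lt_div_iff₀ hKk] at hw'
      linarith
    have hρ : ρ.E p1 = (D α).σ.E p1 := by
      apply htl.eqE p1 hp1S
      have : (0 : ℝ) ≤ k := Nat.cast_nonneg k
      linarith
    have hmem : ρ.E p1 ∈ XX δ := by rw [hρ, ← hE]; exact hxδ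
    have hk1 : ((k + 1 : ℕ) : ℝ) ≤ p1.1 := by
      push_cast
      have : (0 : ℝ) ≤ K := Nat.cast_nonneg K
      linarith
    obtain ⟨p0, hp0S, hp0k, hp0E, hp0f⟩ := hext.back p1 hp1S hk1 hmem
    refine ⟨p0, ⟨hp0S, ?_, ?_⟩, ?_⟩
    · push_cast at hp0k
      linarith
    · exact hp0f.trans (Reg_ty hp1)
    · rw [← hp0E, hρ, hE]

theorem R_shrink (α γ : Om) (hαγ : α ⋖ γ) (n : Ty) (k : ℕ) :
    @closure X (top (eD l D) univ) (Oset (D γ).σ n (k + 1)) ∩ XX α ⊆ Oset (D α).σ n k := by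
  rintro x ⟨hcl, hxα⟩
  have hnext := (hD γ).next α hαγ
  have hatt := fun β (_ : β ∈ (univ : Set Om)) => good_att_all hD β
  have hattα := fun β (_ : β ∈ (Iio α : Set Om)) => good_att_all hD β
  obtain ⟨V, hVo, hxV, k1, hk1⟩ := (hD α).adm.2 x hxα
  have hVo' : IsOpen[top (eD l D) (Iio α)] V := hVo
  have hXo : IsOpen[top (eD l D) (Iio α)] (XX α) := isOpen_XX hattα (isLowerSet_Iio α)
  have hVX : IsOpen[top (eD l D) (Iio α)] (V ∩ XX α) := by
    letI := top (eD l D) (Iio α)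
    exact IsOpen.inter hVo' hXo
  have hVU : IsOpen[top (eD l D) univ] (V ∩ XX α) :=
    isOpen_up hatt isLowerSet_univ inter_subset_right hVX
  set C : Set R3 := Icc ((k : ℝ) + 1) (max (k1 : ℝ) (k + 1)) ×ˢ
    (Icc (cl n) (ch n) ×ˢ Icc (-(13 / 14) : ℝ) (1 / 2)) with hC
  have hCc : IsCompact C := isCompact_Icc.prod (isCompact_Icc.prod isCompact_Icc)
  have hCS : C ⊆ S := by
    rintro ⟨p1, p2, p3⟩ ⟨h1, h2, h3⟩
    have hk0 : (0 : ℝ) ≤ k := Nat.cast_nonneg k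
    simp only [mem_Icc] at h1 h2 h3
    have h4 := band_ty h2.1 h2.2
    refine ⟨?_, h4.1, h4.2.1, ?_, ?_⟩
    · show 0 < p1; linarith [h1.1]
    · show -1 < p3; linarith [h3.1]
    · show p3 < 1; linarith [h3.2]
  have hsub : (V ∩ XX α) ∩ Oset (D γ).σ n (k + 1) ⊆ (D α).σ.E '' C := by
    rintro z ⟨⟨hzV, _⟩, p, ⟨hpS, hpk, hpn⟩, rfl⟩
    rw [hnext] at hzV ⊢
    set q : R3 := Psi (fun _ => 1) (fun _ => 1) (D α).f p with hq
    have hqE : (nextStr (D α).σ (D α).f).E p = (D α).σ.E q := rfl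
    rw [hqE] at hzV ⊢
    have hqS : q ∈ S := Psi_mapsTo (fun _ => ⟨zero_le_one, le_rfl⟩) (fun _ => ⟨zero_le_one, le_rfl⟩)
      (hD α).bd hpS
    have hq1 : q.1 = p.1 := rfl
    have hq2 : q.2.1 = chi p.2.1 := by
      show (1 - 1) * p.2.1 + 1 * chi p.2.1 = _
      ring
    obtain ⟨_, hz1, hz2⟩ := Psi_one_z (θ := fun _ => 1) (θ' := fun _ => 1) hpS (hD α).bd rfl
    have hqk : q.1 < k1 := by
      by_contra hcon
      exact hk1 q hqS (not_lt.mp hcon) hzV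
    refine ⟨q, ⟨⟨?_, ?_⟩, ⟨?_, ?_⟩, ?_, ?_⟩, rfl⟩
    · rw [hq1]
      push_cast at hpk
      exact hpk.le
    · exact le_max_of_le_left hqk.le
    · rw [hq2]; exact (chi_band hpS.2.1 hpS.2.2.1 hpn).1
    · rw [hq2]; exact (chi_band hpS.2.1 hpS.2.2.1 hpn).2
    · exact hz1
    · exact hz2
  have hfin : (D α).σ.E '' C ⊆ Oset (D α).σ n k := by
    rintro _ ⟨p, hp, rfl⟩
    refine ⟨p, ⟨hCS hp, ?_, ?_⟩, rfl⟩
    · have := hp.1.1
      linarith
    · exact (band_ty hp.2.1.1 hp.2.1.2).2.2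
  apply hfin
  letI : TopologicalSpace X := top (eD l D) univ
  haveI : T2Space X := t2 hatt isLowerSet_univ
  have hcont : ContinuousOn (D α).σ.E S := by
    rw [continuousOn_iff']
    intro U hU
    refine ⟨S ∩ (D α).σ.E ⁻¹' U, (hD α).adm.1.cont U (isOpen_down (subset_univ _) hU), ?_⟩
    ext p
    simp only [mem_inter_iff, mem_preimage]
    tauto
  have hclosed : IsClosed ((D α).σ.E '' C) := (hCc.image_of_continuousOn (hcont.mono hCS)).isClosed
  have hx2 : x ∈ closure ((V ∩ XX α) ∩ Oset (D γ).σ n (k + 1)) :=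
    hVU.inter_closure ⟨⟨hxV, hxα⟩, hcl⟩
  exact hclosed.closure_subset_iff.mpr hsub hx2

end R

end Pool.Agent.Helper732.HP
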