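import Pool.Agent.Helper732.HP.O
import Pool.Agent.Helper732.HP.A

set_option autoImplicit false

open Set Filter Topology

namespace Pool.Agent.Helper732.HP

/-! ## TARGETS -/

/-- continuous interpolation at the half integers -/
theorem exists_interp (s : ℕ → ℝ) : ∃ f : ℝ → ℝ, Continuous f ∧ (∀ j : ℕ, f ((j : ℝ) + 1 / 2) = s j) ∧
    ∀ C : ℝ, (∀ j, |s j| ≤ C) → ∀ x, |f x| ≤ C := by
  let t : Set ℝ := {x | ∃ a b, s a ≤ x ∧ x ≤ s b}
  have ht : OrdConnected t := by
    refine ⟨?_⟩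
    rintro x ⟨a, b, hax, hxb⟩ y ⟨a', b', hay, hyb⟩ z ⟨hxz, hzy⟩
    exact ⟨a, b', hax.trans hxz, hzy.trans hyb⟩
  have he : IsClosedEmbedding (fun j : ℕ => (j : ℝ) + 1 / 2) :=
    (Homeomorph.addRight (1 / 2 : ℝ)).isClosedEmbedding.comp Nat.isClosedEmbedding_coe_real
  obtain ⟨g, hg, hge⟩ := ContinuousMap.exists_extension_forall_mem_of_isClosedEmbedding
    (⟨s, continuous_of_discreteTopology⟩ : C(ℕ, ℝ)) (t := t)
    (fun j => ⟨j, j, le_rfl, le_rfl⟩) ⟨s 0, 0, 0, le_rfl, le_rfl⟩ he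
  refine ⟨g, g.continuous, fun j => congrFun hge j, fun C hC x => ?_⟩
  obtain ⟨a, b, ha, hb⟩ := hg x
  rw [abs_le]
  exact ⟨(abs_le.1 (hC a)).1.trans ha, hb.trans (abs_le.1 (hC b)).2⟩

/-- a labelling of the natural numbers for countably many infinite sets -/
theorem exists_label (H : ℕ → Set ℕ) : ∃ lab : ℕ → ℕ, ∀ i, (H i).Infinite → ∀ c,
    {j | j ∈ H i ∧ lab j = c}.Infinite := by
  classical
  have hpick : ∀ k m : ℕ, ∃ j, m ≤ j ∧ ((H k.unpair.1.unpair.1).Infinite →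
      j ∈ H k.unpair.1.unpair.1) := by
    intro k m
    by_cases h : (H k.unpair.1.unpair.1).Infinite
    · obtain ⟨j, hj, hmj⟩ := h.exists_gt m
      exact ⟨j, hmj.le, fun _ => hj⟩
    · exact ⟨m, le_rfl, fun h' => absurd h' h⟩
  choose pick hp1 hp2 using hpick
  let J : ℕ → ℕ := fun k => Nat.rec (motive := fun _ => ℕ) (pick 0 0)
    (fun k r => pick (k + 1) (r + 1)) k
  have hJs : ∀ k, J (k + 1) = pick (k + 1) (J k + 1) := fun k => rfl
  have hJ0 : J 0 = pick 0 0 := rfl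
  have hmono : StrictMono J := by
    refine strictMono_nat_of_lt_succ fun k => ?_
    rw [hJs]
    exact Nat.lt_of_succ_le (hp1 _ _)
  have hmem : ∀ k, (H k.unpair.1.unpair.1).Infinite → J k ∈ H k.unpair.1.unpair.1 := by
    intro k
    cases k with
    | zero => rw [hJ0]; exact hp2 _ _
    | succ k => rw [hJs]; exact hp2 _ _
  let lab : ℕ → ℕ := Function.extend J (fun k => k.unpair.1.unpair.2) (fun _ => 0)
  have hlab : ∀ k, lab (J k) = k.unpair.1.unpair.2 := by
    intro k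
    exact hmono.injective.extend_apply _ _ k
  refine ⟨lab, fun i hi c => ?_⟩
  have hinj : Function.Injective (fun n : ℕ => J (Nat.pair (Nat.pair i c) n)) := by
    intro a b hab
    have h1 := hmono.injective hab
    exact (Nat.pair_eq_pair.1 h1).2
  refine (Set.infinite_range_of_injective hinj).mono ?_
  rintro j ⟨n, rfl⟩
  have h2 := hmem (Nat.pair (Nat.pair i c) n)
  have h3 := hlab (Nat.pair (Nat.pair i c) n)
  simp only [Nat.unpair_pair] at h2 h3
  exact ⟨h2 hi, h3⟩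

/-- the choice of `f` and `w` -/
theorem exists_fw (q : Ty) (σ : Str) (A : ℕ → Set X) (m : ℕ → Ty)
    (hA : ∀ i, (hit (A i) (m i) σ).Infinite) : ∃ f w : ℝ → ℝ, Continuous f ∧ Continuous w ∧
      (∀ x, |f x| ≤ 3 / 4) ∧ (∀ j ∈ σ.J, ¬ R (σ.n j) q → f ((j : ℝ) + 1 / 2) = 3 / 4) ∧
      (∀ j : ℕ, j ∉ σ.J → f ((j : ℝ) + 1 / 2) = -(3 / 4)) ∧ ∀ i, FW q σ f w (A i) (m i) := by
  classical
  obtain ⟨lab, hlab⟩ := exists_label (fun i => hit (A i) (m i) σ)
  obtain ⟨r, hr⟩ := exists_surjective_nat ℚ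
  obtain ⟨f, hfc, hf, hfb⟩ := exists_interp
    (fun j => if j ∈ σ.J ∧ (¬ R (σ.n j) q ∨ lab j = 0) then 3 / 4 else -(3 / 4))
  obtain ⟨w, hwc, hw, -⟩ := exists_interp
    (fun j => (r (lab j - 1) : ℝ) - Real.log ((hg (σ.n j) - lo q) / (hi q - hg (σ.n j))))
  refine ⟨f, w, hfc, hwc, ?_, ?_, ?_, ?_⟩
  · apply hfb
    intro j
    split_ifs
    · rw [abs_of_nonneg (by norm_num)]
    · rw [abs_neg, abs_of_nonneg (by norm_num)]
  · intro j hj hq
    rw [hf, if_pos ⟨hj, Or.inl hq⟩]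
  · intro j hj
    rw [hf, if_neg (fun h => hj h.1)]
  · intro i
    refine ⟨?_, ?_⟩
    · refine (hlab i (hA i) 0).mono ?_
      rintro j ⟨hj, hl⟩
      refine ⟨hj, ?_⟩
      rw [hf, if_pos ⟨hj.1, Or.inr hl⟩]
    · intro hmq x
      obtain ⟨k, hk⟩ := hr x
      refine (hlab i (hA i) (k + 1)).mono ?_
      rintro j ⟨hj, hl⟩
      refine ⟨hj, ?_, ?_⟩
      · rw [hf, if_neg]
        rintro ⟨-, h | h⟩
        · exact h (R.trans hj.2.1 hmq)
        · omega
      · rw [hw, hl, Nat.add_sub_cancel, hk]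

/-- transfinite recursion with invariants -/
theorem exists_rec {Data : Type} [Inhabited Data] (Good : (Om → Data) → Om → Prop)
    (hcongr : ∀ D D' α, (∀ β ≤ α, D β = D' β) → Good D α → Good D' α)
    (hstep : ∀ α D, (∀ β < α, Good D β) → ∃ d, Good (Function.update D α d) α) :
    ∃ D : Om → Data, ∀ α, Good D α := by
  classical
  let F : (α : Om) → ((β : Om) → β < α → Data) → Data := fun α r =>
    if h : ∃ d, Good (Function.update (fun β => if h : β < α then r β h else default) α d) α then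
      Classical.choose h else default
  let D : Om → Data := (wellFounded_lt (α := Om)).fix F
  have hD : ∀ α, D α = F α (fun β _ => D β) := fun α => (wellFounded_lt (α := Om)).fix_eq F α
  refine ⟨D, fun α => ?_⟩
  induction α using (wellFounded_lt (α := Om)).induction with
  | _ α ih =>
    have hE : ∀ β < α, Good (fun β => if _h : β < α then D β else default) β := fun β hβ =>
      hcongr D _ β (fun γ hγ => by simp [lt_of_le_of_lt hγ hβ]) (ih β hβ)
    have hex := hstep α _ hE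
    have hDα : D α = Classical.choose hex := by
      rw [hD α]
      exact dif_pos hex
    have := Classical.choose_spec hex
    rw [← hDα] at this
    refine hcongr _ D α (fun β hβ => ?_) this
    rcases hβ.lt_or_eq with h | h
    · rw [Function.update_of_ne h.ne]; simp [h]
    · subst h; rw [Function.update_self]

theorem top_congr' {e e' : Om → R3 → X} {s : Set Om} (h : ∀ β ∈ s, e β = e' β) :
    top e s = top e' s := by
  refine TopologicalSpace.ext_iff.2 fun U => ?_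
  show (IsOpen (Sum.inl ⁻¹' U : Set R3) ∧ ∀ β ∈ s, IsOpen (e β ⁻¹' U)) ↔
    (IsOpen (Sum.inl ⁻¹' U : Set R3) ∧ ∀ β ∈ s, IsOpen (e' β ⁻¹' U))
  constructor
  · rintro ⟨h1, h2⟩
    exact ⟨h1, fun β hβ => by rw [← h β hβ]; exact h2 β hβ⟩
  · rintro ⟨h1, h2⟩
    exact ⟨h1, fun β hβ => by rw [h β hβ]; exact h2 β hβ⟩

theorem TT_congr' {l : Om → Ty} {D D' : Om → Dat} {α : Om} (h : ∀ β < α, D β = D' β) :
    TT l D α = TT l D' α := by
  unfold TT
  apply top_congr'
  intro β hβ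
  unfold eD
  rw [h β hβ]

theorem Acc_congr' {l : Om → Ty} {s s' : Om → Str} {A : Set X} {δ : Om} {m : Ty}
    (h : ∀ β < δ, s β = s' β) (ha : Acc l s A δ m) : Acc l s' A δ m := by
  refine ⟨ha.1, fun β hβ k => ?_⟩
  rw [← h β hβ]
  exact ha.2 β hβ k

theorem good_congr {l : Om → Ty} {G : Om → Set X} {D D' : Om → Dat} {α : Om}
    (h : ∀ β ≤ α, D β = D' β) (hg : Good l G D α) : Good l G D' α := by
  have hT : TT l D α = TT l D' α := TT_congr' fun β hβ => h β hβ.le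
  have hα := h α le_rfl
  constructor
  · rw [← hT, ← hα]; exact hg.adm
  · intro β hβ
    rw [← hT, ← hα, ← h β hβ.le]; exact hg.tr β hβ
  · rw [← hα]; exact hg.cf
  · rw [← hα]; exact hg.cw
  · rw [← hα]; exact hg.bd
  · rw [← hα]; exact hg.keep
  · rw [← hα]; exact hg.cap
  · intro δ hδ m hacc
    rw [← hα]
    exact hg.task δ hδ m (Acc_congr' (fun β hβ => by rw [h β (hβ.le.trans hδ)]) hacc)
  · intro β hβ
    rw [← hα, ← h β hβ.lt.le]; exact hg.next β hβ

/-- the choice of `f` and `w` for countably many tasks -/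
theorem exists_fw' (q : Ty) (σ : Str) (T : Set (Set X × Ty)) (hT : T.Countable)
    (hA : ∀ a ∈ T, (hit a.1 a.2 σ).Infinite) : ∃ f w : ℝ → ℝ, Continuous f ∧ Continuous w ∧
      (∀ x, |f x| ≤ 3 / 4) ∧ (∀ j ∈ σ.J, ¬ R (σ.n j) q → f ((j : ℝ) + 1 / 2) = 3 / 4) ∧
      (∀ j : ℕ, j ∉ σ.J → f ((j : ℝ) + 1 / 2) = -(3 / 4)) ∧
      ∀ a ∈ T, FW q σ f w a.1 a.2 := by
  classical
  rcases T.eq_empty_or_nonempty with h0 | hne
  · obtain ⟨f, hf, hfv, hfb⟩ := exists_interp (fun j => if j ∈ σ.J then (3 / 4 : ℝ) else -(3 / 4))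
    refine ⟨f, fun _ => 0, hf, continuous_const, hfb _ ?_, ?_, ?_, ?_⟩
    · intro j
      split_ifs
      · rw [abs_of_pos (by norm_num)]
      · rw [abs_neg, abs_of_pos (by norm_num)]
    · intro j hj _
      rw [hfv, if_pos hj]
    · intro j hj
      rw [hfv, if_neg hj]
    · intro a ha
      rw [h0] at ha
      exact absurd ha (Set.notMem_empty a)
  · obtain ⟨g, hg⟩ := hT.exists_eq_range hne
    obtain ⟨f, w, h1, h2, h3, h4, h5, h6⟩ := exists_fw q σ (fun i => (g i).1) (fun i => (g i).2)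
      (fun i => hA (g i) (by rw [hg]; exact mem_range_self i))
    refine ⟨f, w, h1, h2, h3, h4, h5, ?_⟩
    intro a ha
    rw [hg] at ha
    obtain ⟨i, rfl⟩ := ha
    exact h6 i

/-- from a strip at stage `α` to the data -/
theorem good_of_strip {l : Om → Ty} {G : Om → Set X} {D : Om → Dat} {α : Om} (σ : Str)
    (h1 : Adm l (TT l D α) α σ) (h2 : ∀ β < α, TR l (TT l D α) β α (D β).σ σ)
    (h3 : ∀ δ ≤ α, ∀ m, Acc l (fun β => (D β).σ) (G δ) δ m → (hit (G δ) m σ).Infinite)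
    (h4 : ∀ β, β ⋖ α → σ = nextStr (D β).σ (D β).f) :
    ∃ d, Good l G (Function.update D α d) α := by
  classical
  have hIic : (Iic α).Countable := by
    rw [← Set.Iio_insert]
    exact (om_countable α).insert α
  let T : Set (Set X × Ty) := {a | ∃ δ ≤ α, Acc l (fun β => (D β).σ) (G δ) δ a.2 ∧ a.1 = G δ}
  have hT : T.Countable := by
    have : T ⊆ (fun b : Om × Ty => (G b.1, b.2)) '' ((Iic α) ×ˢ (univ : Set Ty)) := by
      rintro ⟨A, m⟩ ⟨δ, hδ, _, hA⟩
      simp only at hA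
      exact ⟨(δ, m), ⟨hδ, mem_univ _⟩, by simp [hA]⟩
    exact ((hIic.prod (Set.to_countable _)).image _).mono this
  obtain ⟨f, w, hf, hw, hb, hk, hc, htask⟩ := exists_fw' (l α) σ T hT (by
    rintro ⟨A, m⟩ ⟨δ, hδ, hacc, hA⟩
    simp only at hA hacc
    subst hA
    exact h3 δ hδ m hacc)
  refine ⟨⟨σ, f, w⟩, ?_⟩
  have hlt : ∀ β < α, Function.update D α ⟨σ, f, w⟩ β = D β := fun β hβ =>
    Function.update_of_ne hβ.ne _ _
  have hTT : TT l (Function.update D α ⟨σ, f, w⟩) α = TT l D α := TT_congr' hlt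
  have hα : Function.update D α ⟨σ, f, w⟩ α = ⟨σ, f, w⟩ := Function.update_self _ _ _
  constructor
  · rw [hTT, hα]; exact h1
  · intro β hβ
    rw [hTT, hα, hlt β hβ]; exact h2 β hβ
  · rw [hα]; exact hf
  · rw [hα]; exact hw
  · rw [hα]; exact hb
  · rw [hα]; exact hk
  · rw [hα]; exact hc
  · intro δ hδ m hacc
    rw [hα]
    have hacc' : Acc l (fun β => (D β).σ) (G δ) δ m :=
      Acc_congr' (fun β hβ => by rw [hlt β (hβ.trans_le hδ)]) hacc
    exact htask (G δ, m) ⟨δ, hδ, hacc', rfl⟩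
  · intro β hβ
    rw [hα, hlt β hβ.lt]; exact h4 β hβ

end Pool.Agent.Helper732.HP
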