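import Pool.Agent.Helper732.HP.R0

set_option autoImplicit false

open Set Filter Topology

namespace Pool.Agent.Helper732.HP

/-! ### Countable ordinals -/

theorem om_countable (a : Om) : (Iio a).Countable := by
  have h : Cardinal.mk (Set.Iio a) < Cardinal.aleph 1 := Cardinal.mk_Iio_toType_ord_lt a
  have h1 : Cardinal.aleph 1 ≤ Order.succ (Cardinal.aleph0 : Cardinal.{0}) :=
    Cardinal.succ_aleph0.ge
  exact Set.countable_coe_iff.1 (Cardinal.mk_le_aleph0_iff.1 (Order.lt_succ_iff.1 (h.trans_le h1)))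

theorem om_bound (f : ℕ → Om) : ∃ a : Om, ∀ n, f n < a := by
  by_contra hc
  push Not at hc
  have h1 : (Set.univ : Set Om) ⊆ ⋃ n, Set.Iic (f n) := by
    intro a _
    obtain ⟨n, hn⟩ := hc a
    exact Set.mem_iUnion.2 ⟨n, hn⟩
  have h2 : (⋃ n, Set.Iic (f n)).Countable := by
    refine Set.countable_iUnion fun n => ?_
    have : Set.Iic (f n) = insert (f n) (Set.Iio (f n)) := by
      ext x
      simp [le_iff_eq_or_lt]
    rw [this]
    exact Set.Countable.insert _ (om_countable _)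
  have h3 := h2.mono h1
  rw [Set.countable_univ_iff, ← Cardinal.mk_le_aleph0_iff] at h3
  have h4 : Cardinal.mk Om = Cardinal.aleph 1 := by simp
  rw [h4] at h3
  exact absurd h3 (not_le.2 Cardinal.aleph0_lt_aleph_one)

theorem om_gt (a : Om) : ∃ b : Om, a < b := by
  obtain ⟨b, hb⟩ := om_bound fun _ => a
  exact ⟨b, hb 0⟩

theorem om_covBy (a : Om) : ∃ b : Om, a ⋖ b := by
  obtain ⟨b, hb⟩ := om_gt a
  refine ⟨WellFounded.min (wellFounded_lt (α := Om)) (Ioi a) ⟨b, hb⟩, ?_, ?_⟩
  · exact WellFounded.min_mem (wellFounded_lt (α := Om)) (Ioi a) ⟨b, hb⟩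
  · intro c hc hlt
    exact WellFounded.not_lt_min (wellFounded_lt (α := Om)) (s := Ioi a) hc hlt

theorem covBy_Iio {a b : Om} (h : a ⋖ b) {c : Om} : c < b ↔ c ≤ a := by
  constructor
  · intro hc
    by_contra hn
    exact h.2 (not_le.1 hn) hc
  · intro hc
    exact lt_of_le_of_lt hc h.1

end Pool.Agent.Helper732.HP
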