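import Pool.Agent.Helper732.HP.Defs

set_option autoImplicit false

open Set Filter Topology

namespace Pool.Agent.Helper732.HP

theorem R.refl (a : Ty) : R a a := Or.inr rfl

theorem R.zero (a : Ty) : R 0 a := Or.inl rfl

theorem R.trans {a b c : Ty} (h : R a b) (h' : R b c) : R a c := by
  rcases h with h | h
  · exact Or.inl h
  · subst h; exact h'

theorem hg_pos (m : Ty) : 0 < hg m ∧ hg m < 3 := by
  unfold hg
  split_ifs <;> norm_num

theorem mk_mem (j : ℕ) (m : Ty) : mk j m ∈ S := by
  refine ⟨?_, (hg_pos m).1, (hg_pos m).2, ?_, ?_⟩
  · simp only [mk]; positivity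
  · simp [mk]
  · simp [mk]

theorem isOpen_S : IsOpen S :=
  (isOpen_lt continuous_const continuous_fst).inter
    ((isOpen_lt continuous_const (continuous_fst.comp continuous_snd)).inter
    ((isOpen_lt (continuous_fst.comp continuous_snd) continuous_const).inter
    ((isOpen_lt continuous_const (continuous_snd.comp continuous_snd)).inter
    (isOpen_lt (continuous_snd.comp continuous_snd) continuous_const))))

end Pool.Agent.Helper732.HP
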